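import Pool.Agent.Lib.MP_c40b92_nt.Main

namespace Pool.Agent.Lib.MP_c40b92_nt

open MvPolynomial
open scoped Pointwise

section
variable {k : Type} [Field k]

/-- One round of field operations. -/
def step (S : Set k) : Set k := {x | ∃ a ∈ S, ∃ b ∈ S, ∃ c ∈ S, c ≠ 0 ∧ x = (a - b) / c}

/-- Quotients of differences, followed by rounds of field operations. -/
def lev (A : Set k) : ℕ → Set k
  | 0 => {x | ∃ a ∈ A, ∃ b ∈ A, ∃ c ∈ A, ∃ d ∈ A, c ≠ d ∧ x = (a - b) / (c - d)}
  | n + 1 => step (lev A n)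

theorem Diophantine.step {S : Set k} (h : Diophantine S) : Diophantine (step S) := by
  have := h.comp (β := Fin 5) (J := Fin 3) 0
    {X 0 * X 3 - (X 1 - X 2), X 3 * X 4 - 1} (Set.toFinite _) ![X 1, X 2, X 3]
  convert this using 1
  ext x
  constructor
  · rintro ⟨a, ha, b, hb, c, hc, h0, rfl⟩
    refine ⟨![(a - b) / c, a, b, c, c⁻¹], rfl, ?_, fun j => ?_⟩
    · rintro p (rfl | rfl) <;> simp [h0]
    · fin_cases j <;> simpa
  · rintro ⟨v, rfl, h1, h2⟩
    have a1 := h1 _ (Or.inl rfl)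
    have a2 := h1 _ (Or.inr rfl)
    simp only [map_sub, map_mul, eval_X, map_one, sub_eq_zero] at a1 a2
    have h0 : v 3 ≠ 0 := left_ne_zero_of_mul_eq_one a2
    exact ⟨v 1, by simpa using h2 0, v 2, by simpa using h2 1, v 3, by simpa using h2 2, h0,
      eq_div_of_mul_eq h0 a1⟩

theorem Diophantine.lev {A : Set k} (h : Diophantine A) (n : ℕ) : Diophantine (lev A n) := by
  induction n with
  | succ n ih => exact ih.step
  | zero =>
    have := h.comp (β := Fin 6) (J := Fin 4) 0
      {X 0 * (X 3 - X 4) - (X 1 - X 2), (X 3 - X 4) * X 5 - 1} (Set.toFinite _)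
      ![X 1, X 2, X 3, X 4]
    convert this using 2 with x
    ext x
    constructor
    · rintro ⟨a, ha, b, hb, c, hc, d, hd, h0, rfl⟩
      have h0' := sub_ne_zero.2 h0
      refine ⟨![(a - b) / (c - d), a, b, c, d, (c - d)⁻¹], rfl, ?_, fun j => ?_⟩
      · rintro p (rfl | rfl) <;> simp [h0']
      · fin_cases j <;> simpa
    · rintro ⟨v, rfl, h1, h2⟩
      have a1 := h1 _ (Or.inl rfl)
      have a2 := h1 _ (Or.inr rfl)
      simp only [map_sub, map_mul, eval_X, map_one, sub_eq_zero] at a1 a2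
      have h0 : v 3 - v 4 ≠ 0 := left_ne_zero_of_mul_eq_one a2
      exact ⟨v 1, by simpa using h2 0, v 2, by simpa using h2 1, v 3, by simpa using h2 2, v 4,
        by simpa using h2 3, sub_ne_zero.1 h0, eq_div_of_mul_eq h0 a1⟩

theorem lev_subset {A : Set k} (F : Subfield k) (h : A ⊆ F) (n : ℕ) : lev A n ⊆ F := by
  induction n with
  | zero =>
    rintro _ ⟨a, ha, b, hb, c, hc, d, hd, -, rfl⟩
    exact F.div_mem (F.sub_mem (h ha) (h hb)) (F.sub_mem (h hc) (h hd))
  | succ n ih =>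
    rintro _ ⟨a, ha, b, hb, c, hc, -, rfl⟩
    exact F.div_mem (F.sub_mem (ih ha) (ih hb)) (ih hc)

variable {A : Set k}

theorem zero_one_lev (h : A.Nontrivial) (n : ℕ) : (0 : k) ∈ lev A n ∧ (1 : k) ∈ lev A n := by
  induction n with
  | zero =>
    obtain ⟨a, ha, b, hb, e⟩ := h
    exact ⟨⟨a, ha, a, ha, a, ha, b, hb, e, by simp⟩,
      ⟨a, ha, b, hb, a, ha, b, hb, e, (div_self (sub_ne_zero.2 e)).symm⟩⟩
  | succ n ih =>
    exact ⟨⟨0, ih.1, 0, ih.1, 1, ih.2, one_ne_zero, by simp⟩,
      ⟨1, ih.2, 0, ih.1, 1, ih.2, one_ne_zero, by simp⟩⟩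

theorem sub_lev (h : A.Nontrivial) {n : ℕ} {a b : k} (ha : a ∈ lev A n) (hb : b ∈ lev A n) :
    a - b ∈ lev A (n + 1) := ⟨a, ha, b, hb, 1, (zero_one_lev h n).2, one_ne_zero, by simp⟩

theorem lev_mono (h : A.Nontrivial) : Monotone (lev A) :=
  monotone_nat_of_le_succ fun n a ha => by simpa using sub_lev h ha (zero_one_lev h n).1

/-- If any `D` small natural numbers and `1` are dependent with coefficients of low level, then
the small natural numbers are of low level. -/
theorem nat_lev (hA : A.Nontrivial) (h : ℕ) (D : ℕ) : ∀ n : ℕ,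
    (∀ e : Fin D → ℕ, (∀ i, e i ≤ h) → ∃ (c₀ : k) (c : Fin D → k), c₀ ∈ lev A n ∧
      (∀ i, c i ∈ lev A n) ∧ c₀ + ∑ i, c i * e i = 0 ∧ ¬ (c₀ = 0 ∧ ∀ i, c i = 0)) →
    ∀ x ≤ h, (x : k) ∈ lev A (n + 3 * D) := by
  induction D with
  | zero =>
    intro n H
    obtain ⟨c₀, c, -, -, h1, h2⟩ := H Fin.elim0 fun i => i.elim0
    exact absurd ⟨by simpa using h1, fun i => i.elim0⟩ h2
  | succ D ih =>
    intro n H x hx
    by_cases H' : ∀ e : Fin D → ℕ, (∀ i, e i ≤ h) → ∃ (c₀ : k) (c : Fin D → k),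
        c₀ ∈ lev A (n + 3) ∧ (∀ i, c i ∈ lev A (n + 3)) ∧ c₀ + ∑ i, c i * e i = 0 ∧
          ¬ (c₀ = 0 ∧ ∀ i, c i = 0)
    · have := ih (n + 3) H' x hx
      rwa [show n + 3 + 3 * D = n + 3 * (D + 1) by ring] at this
    simp only [not_forall, not_exists, not_and, not_not] at H'
    obtain ⟨e, he, ind⟩ := H'
    refine lev_mono hA (show n + 1 ≤ n + 3 * (D + 1) by omega) ?_
    induction x with
    | zero => simpa using (zero_one_lev hA _).1
    | succ x ihx =>
      have hx' := ihx (by omega)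
      obtain ⟨c₀, c, h1, h2, h3, h4⟩ := H (Fin.cons (x + 1) e) (Fin.forall_fin_succ.2 ⟨hx, he⟩)
      rw [Fin.sum_univ_succ] at h3
      simp only [Fin.cons_zero, Fin.cons_succ] at h3
      have m3 : lev A n ⊆ lev A (n + 3) := lev_mono hA (by omega)
      have hc : c 0 ≠ 0 := fun h0 => by
        have := ind c₀ (fun i => c i.succ) (m3 h1) (fun i => m3 (h2 _)) (by simpa [h0] using h3)
        exact h4 ⟨this.1, Fin.forall_fin_succ.2 ⟨h0, this.2⟩⟩
      have l : ∀ a ∈ lev A n, (0 - a) / c 0 ∈ lev A (n + 1) := fun a ha =>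
        ⟨0, (zero_one_lev hA n).1, a, ha, c 0, h2 0, hc, rfl⟩
      have := (ind ((0 - c₀) / c 0 - x - 1) (fun i => (0 - c i.succ) / c 0)
        (sub_lev hA (sub_lev hA (l _ h1) hx') (zero_one_lev hA _).2)
        (fun i => lev_mono hA (show n + 1 ≤ n + 3 by omega) (l _ (h2 _))) (by
          simp only [div_mul_eq_mul_div, ← Finset.sum_div, zero_sub, neg_mul,
            Finset.sum_neg_distrib]
          field_simp
          push_cast at h3
          linear_combination -h3)).1
      convert l _ h1 using 1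
      push_cast
      linear_combination -this

theorem sum_mem_nsmul {N : Set k} {ι : Type} (s : Finset ι) (e : ι → ℕ) (x : ι → k)
    (hx : ∀ i, x i ∈ N) : ∑ i ∈ s, x i * e i ∈ (∑ i ∈ s, e i) • N := by
  classical
  induction s using Finset.induction_on with
  | empty => simp
  | insert a s ha ih =>
    rw [Finset.sum_insert ha, Finset.sum_insert ha, add_nsmul]
    refine Set.add_mem_add ?_ ih
    rw [mul_comm, ← nsmul_eq_mul]
    exact Set.nsmul_mem_nsmul (hx a)

/-- Small sumsets give linear relations. -/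
theorem dep_of_sumset {N : Set k} (hN : N.Finite) {m h : ℕ}
    (hc : ((m * h) • N).ncard < N.ncard ^ m) (e : Fin m → ℕ) (he : ∀ i, e i ≤ h) :
    ∃ x y : Fin m → k, (∀ i, x i ∈ N) ∧ (∀ i, y i ∈ N) ∧ x ≠ y ∧
      ∑ i, x i * e i = ∑ i, y i * e i := by
  classical
  have hs : ∑ i, e i ≤ m * h := by
    simpa using Finset.sum_le_card_nsmul Finset.univ e h fun i _ => he i
  rcases N.eq_empty_or_nonempty with rfl | ⟨z, hz⟩
  · rcases m with _ | m
    · simp [← Set.singleton_zero] at hc
    · simp at hc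
  have fin : ((m * h) • N).Finite := by
    generalize m * h = n
    induction n with
    | zero => simp
    | succ n ih => rw [succ_nsmul]; exact ih.add hN
  obtain ⟨x, hx, y, hy, h1, h2⟩ := Finset.exists_ne_map_eq_of_card_lt_of_maps_to
    (s := Fintype.piFinset fun _ : Fin m => hN.toFinset) (t := fin.toFinset)
    (by simpa [← Set.ncard_eq_toFinset_card] using hc)
    (f := fun x => ∑ i, x i * e i + (m * h - ∑ i, e i) • z) (fun x hx => by
      simp only [Finset.mem_coe, Fintype.mem_piFinset, Set.Finite.mem_toFinset] at hx ⊢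
      rw [← Nat.add_sub_cancel' hs, add_nsmul, Nat.add_sub_cancel' hs]
      exact Set.add_mem_add (sum_mem_nsmul _ e x hx) (Set.nsmul_mem_nsmul hz))
  simp only [Fintype.mem_piFinset, Set.Finite.mem_toFinset] at hx hy
  exact ⟨x, y, hx, hy, h1, add_right_cancel h2⟩

/-- A set with small iterated sumsets produces all rational numbers in boundedly many steps. -/
theorem rat_lev [CharZero k] {m : ℕ}
    (H : ∀ h : ℕ, ∃ N ⊆ A, N.Finite ∧ (h • N).ncard < N.ncard ^ m) :
    ∃ n, ∀ q : ℚ, (q : k) ∈ lev A n := by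
  have hA : A.Nontrivial := by
    obtain ⟨N, h1, h2, h3⟩ := H 0
    have := h2.to_subtype
    refine (Set.one_lt_ncard_iff_nontrivial.1 ?_).mono h1
    by_contra h4
    have := pow_le_one₀ (n := m) (Nat.zero_le _) (not_lt.1 h4)
    simp only [zero_smul, ← Set.singleton_zero, Set.ncard_singleton] at h3
    omega
  have key : ∀ x : ℕ, (x : k) ∈ lev A (3 * m) := fun x => by
    obtain ⟨N, h1, h2, h3⟩ := H (m * x)
    have := nat_lev hA x m 0 (fun e he => by
      obtain ⟨a, b, ha, hb, h4, h5⟩ := dep_of_sumset h2 h3 e he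
      obtain ⟨j, hj⟩ := Function.ne_iff.1 h4
      refine ⟨0, fun i => (a i - b i) / (a j - b j), (zero_one_lev hA 0).1, fun i =>
        ⟨_, h1 (ha i), _, h1 (hb i), _, h1 (ha j), _, h1 (hb j), hj, rfl⟩, ?_, fun h6 => ?_⟩
      · simp only [div_mul_eq_mul_div, ← Finset.sum_div, sub_mul, Finset.sum_sub_distrib, h5]
        simp
      · simpa [sub_ne_zero.2 hj] using h6.2 j) x le_rfl
    rwa [zero_add] at this
  refine ⟨3 * m + 1, fun q => ⟨_, key q.num.toNat, _, key (-q.num).toNat, _, key q.den,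
    by simp, ?_⟩⟩
  rw [Rat.cast_def]
  congr 1
  exact_mod_cast congrArg (Int.cast : ℤ → k) (Int.toNat_sub_toNat_neg q.num).symm

/-- An equation over a finite extension in unknowns of the base field. -/
theorem coord {L β : Type} [Field L] [Algebra k L] [FiniteDimensional k L] (p : MvPolynomial β L) :
    ∃ q : Fin (Module.finrank k L) → MvPolynomial β k, ∀ a : β → k,
      eval (fun b => algebraMap k L (a b)) p = 0 ↔ ∀ j, eval a (q j) = 0 := by
  let l := Module.finBasis k L
  have : ∃ q : Fin (Module.finrank k L) → MvPolynomial β k, ∀ (a : β → k) j,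
      eval a (q j) = l.repr (eval (fun b => algebraMap k L (a b)) p) j := by
    induction p using MvPolynomial.induction_on with
    | C c => exact ⟨fun j => C (l.repr c j), by simp⟩
    | add p p' h h' =>
      obtain ⟨q, hq⟩ := h
      obtain ⟨q', hq'⟩ := h'
      exact ⟨q + q', by simp [hq, hq']⟩
    | mul_X p n h =>
      obtain ⟨q, hq⟩ := h
      refine ⟨fun j => q j * X n, fun a j => ?_⟩
      rw [map_mul, map_mul, eval_X, eval_X, hq, mul_comm _ (algebraMap k L _), ← Algebra.smul_def,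
        map_smul, Finsupp.smul_apply, smul_eq_mul, mul_comm]
  obtain ⟨q, hq⟩ := this
  exact ⟨q, fun a => by simp only [hq, ← l.repr.map_eq_zero_iff, Finsupp.ext_iff]; rfl⟩

end

variable {K : Type} [Field K] [NumberField K]

/-- A Diophantine set of real elements that contains the rational numbers defines the ball. -/
theorem ball_of_rat (σ : K →+* ℂ) {A : Set K} (hA : Diophantine A) (hr : ∀ x ∈ A, (σ x).im = 0)
    (hq : ∀ q : ℚ, (q : K) ∈ A) : Diophantine {x | ‖σ x‖ ≤ 1} := by
  let L := IntermediateField.normalClosure ℚ K ℂ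
  have : NumberField L := ⟨⟩
  let ι : L →+* ℂ := algebraMap L ℂ
  have hc : ∀ x : L, ∃ y : L, ι y = starRingEnd ℂ (ι x) := fun x => by
    have : L ≤ L.comap (starRingEnd ℂ).toRatAlgHom := normalClosure_le_iff.2 fun f => by
      rintro _ ⟨z, rfl⟩
      exact ((starRingEnd ℂ).toRatAlgHom.comp f).fieldRange_le_normalClosure ⟨z, rfl⟩
    exact ⟨⟨_, this x.2⟩, rfl⟩
  let s : K →+* L := σ.codRestrict L fun x => σ.toRatAlgHom.fieldRange_le_normalClosure ⟨x, rfl⟩
  have hs : ∀ x, ι (s x) = σ x := fun _ => rfl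
  let _ := s.toAlgebra
  have : IsScalarTower ℚ K L := .of_algebraMap_eq' (Subsingleton.elim _ _)
  have : FiniteDimensional K L := Module.Finite.of_restrictScalars_finite ℚ K L
  obtain ⟨b, hb⟩ := exists_bar ι hc
  obtain ⟨c, c1, c2, hrep⟩ := exists_rep ι hc
  let e := Module.finBasis ℚ K
  let l := Module.finBasis ℚ L
  let r : Fin (Module.finrank ℚ L) → L := fun j => l j + b (l j)
  have hr1 : ∀ j, (ι (r j)).im = 0 := fun j => by simp [r, hb]
  have hr2 : ∀ y : L, (ι y).im = 0 → ∃ t : Fin (Module.finrank ℚ L) → ℚ,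
      y = ∑ j, (t j : L) * r j := fun y hy => by
    have e1 : b y = y := ι.injective (by rw [hb]; exact Complex.conj_eq_iff_im.2 hy)
    have e2 : y = ∑ j, (l.repr y j : L) * l j := by
      simpa only [Rat.smul_def] using (l.sum_repr y).symm
    have e3 : b y = ∑ j, (l.repr y j : L) * b (l j) := by
      conv_lhs => rw [e2]
      simp only [map_sum, map_mul, map_ratCast]
    refine ⟨fun j => l.repr y j / 2, ?_⟩
    simp only [r, Rat.cast_div, Rat.cast_ofNat, div_mul_eq_mul_div, ← Finset.sum_div, mul_add,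
      Finset.sum_add_distrib, ← e2, ← e3, e1]
    ring
  let J := Fin (Module.finrank ℚ K) ⊕ Option (Idx L) × Fin (Module.finrank ℚ L)
  let w : Option (Idx L) → MvPolynomial (Option J) L := fun i =>
    ∑ j, X (some (.inr (i, j))) * C (r j)
  obtain ⟨q, hq'⟩ := coord (k := K) (1 - X none * (∑ i, X (some (.inl i)) * C (b (s (e i)))) -
    (∑ i, w (some i) ^ 2 + C c * w none ^ 2) : MvPolynomial (Option J) L)
  have := hA.comp (β := Option J) (J := J) none
    (insert (X none - ∑ i, X (some (.inl i)) * C (e i)) (Set.range q)) (Set.toFinite _)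
    fun j => X (some j)
  convert this using 2 with x
  ext x
  simp only [Set.mem_insert_iff, Set.mem_range, forall_eq_or_imp, forall_exists_index,
    forall_apply_eq_imp_iff, ← hq', eval_X, map_sub, map_add, map_mul, map_sum, map_pow, map_one,
    eval_C, w, sub_eq_zero, RingHom.algebraMap_toAlgebra]
  constructor
  · intro hx
    have e0 : ι (1 - s x * b (s x)) = ((1 - ‖σ x‖ ^ 2 : ℝ) : ℂ) := by
      rw [map_sub, map_mul, hb, hs, Complex.mul_conj, Complex.normSq_eq_norm_sq]; simp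
    obtain ⟨v, u, v1, u1, e1⟩ := hrep (1 - s x * b (s x)) (by rw [e0]; exact Complex.ofReal_im _)
      (by rw [e0, Complex.ofReal_re]; nlinarith [norm_nonneg (σ x)])
    obtain ⟨tv, hv⟩ := hr2 v v1
    choose tu hu using fun i => hr2 (u i) (u1 i)
    have e2 : x = ∑ i, (e.repr x i : K) * e i := by
      simpa only [Rat.smul_def] using (e.sum_repr x).symm
    have e3 : b (s x) = ∑ i, (e.repr x i : L) * b (s (e i)) := by
      conv_lhs => rw [e2]
      simp only [map_sum, map_mul, map_ratCast]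
    refine ⟨fun o => o.elim x (Sum.elim (fun i => (e.repr x i : K))
      fun z => (z.1.elim tv tu z.2 : K)), rfl, ⟨e2, ?_⟩, ?_⟩
    · simp only [Option.elim, Sum.elim_inl, Sum.elim_inr, map_ratCast, ← e3, ← hv, ← hu]
      exact e1
    · rintro (i | z) <;> exact hq _
  · rintro ⟨v, rfl, ⟨h1, h2⟩, h3⟩
    have a1 : ι (∑ i, s (v (some (.inl i))) * b (s (e i))) = starRingEnd ℂ (σ (v none)) := by
      rw [h1]
      simp only [map_sum, map_mul, hb, hs]
      exact Finset.sum_congr rfl fun i _ => by rw [Complex.conj_eq_iff_im.2 (hr _ (h3 _))]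
    have a2 : ∀ i, (ι (∑ j, s (v (some (.inr (i, j)))) * r j)).im = 0 := fun i => by
      simp [hs, hr1, hr _ (h3 _)]
    obtain ⟨y, hy⟩ : ∃ y : Option (Idx L) → L,
      ∀ i, ∑ j, s (v (some (.inr (i, j)))) * r j = y i := ⟨_, fun _ => rfl⟩
    simp only [hy] at a2 h2
    have a3 := congrArg (fun z => (ι z).re) h2
    simp only [map_sub, map_one, map_mul ι (s _), a1, hs, Complex.mul_conj] at a3
    simp [pow_two, a2, c1] at a3
    have a7 : 0 ≤ ∑ i, (ι (y (some i))).re * (ι (y (some i))).re :=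
      Finset.sum_nonneg fun i _ => mul_self_nonneg _
    have a8 := mul_nonneg c2.le (mul_self_nonneg (ι (y none)).re)
    show ‖σ (v none)‖ ≤ 1
    rw [← sq_le_one_iff₀ (norm_nonneg _), ← Complex.normSq_eq_norm_sq]
    linarith

theorem ball_of_sumset (σ : K →+* ℂ) {A : Set K} (hA : Diophantine A)
    (hr : ∀ x ∈ A, (σ x).im = 0) {m : ℕ}
    (H : ∀ h : ℕ, ∃ N ⊆ A, N.Finite ∧ (h • N).ncard < N.ncard ^ m) :
    Diophantine {x | ‖σ x‖ ≤ 1} := by
  obtain ⟨n, hn⟩ := rat_lev H
  refine ball_of_rat σ (hA.lev n) (fun x hx => ?_) hn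
  obtain ⟨t, ht⟩ := lev_subset (Complex.ofRealHom.fieldRange.comap σ)
    (fun x hx => ⟨(σ x).re, Complex.ext (by simp) (by simp [hr x hx])⟩) n hx
  rw [← ht]
  simp

end Pool.Agent.Lib.MP_c40b92_nt
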