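import Pool.Agent.Lib.MP_c40b92_nt.Main

namespace Pool.Agent.Lib.MP_c40b92_nt

open MvPolynomial Filter Topology

variable {K : Type} [Field K]

theorem dioph_fam {β J : Type} [Finite β] [Finite J] {A : J → Set K}
    (hA : ∀ j, Diophantine (A j)) (i : β)
    (P : Set (MvPolynomial β K)) (hP : P.Finite) (q : J → MvPolynomial β K) :
    Diophantine {x | ∃ v : β → K, v i = x ∧ (∀ p ∈ P, eval v p = 0) ∧
      ∀ j, eval v (q j) ∈ A j} := by
  choose n Q i0 hA using hA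
  have := dioph_of (k := K) (β := β ⊕ Σ j : J, Fin (n j)) (Sum.inl i)
    (rename Sum.inl '' P ∪ (⋃ j : J, rename (fun t => Sum.inr ⟨j, t⟩) '' (Q j : Set _)) ∪
      Set.range fun j => X (Sum.inr ⟨j, i0 j⟩) - rename Sum.inl (q j))
    (((hP.image _).union (Set.finite_iUnion fun j => (Q j).finite_toSet.image _)).union
      (Set.finite_range _))
  convert this using 2 with x
  ext x
  constructor
  · rintro ⟨v, rfl, h1, h2⟩
    have h3 : ∀ j, ∃ w : Fin (n j) → K, (∀ p ∈ Q j, eval w p = 0) ∧ w (i0 j) = eval v (q j) :=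
      fun j => by have := h2 j; rw [hA j] at this; exact this
    choose w hw hw' using h3
    refine ⟨Sum.elim v fun z => w z.1 z.2, rfl, ?_⟩
    rintro p ((⟨p, hp, rfl⟩ | hp) | ⟨j, rfl⟩)
    · rw [eval_rename]; exact h1 p hp
    · obtain ⟨j, p, hp', rfl⟩ := Set.mem_iUnion.1 hp
      rw [eval_rename]; exact hw j p hp'
    · simp only [map_sub, eval_X, Sum.elim_inr, eval_rename, Sum.elim_comp_inl]
      exact sub_eq_zero.2 (hw' j)
  · rintro ⟨v, rfl, h⟩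
    refine ⟨v ∘ Sum.inl, rfl, fun p hp => ?_, fun j => ?_⟩
    · rw [← eval_rename]; exact h _ (Or.inl (Or.inl ⟨p, hp, rfl⟩))
    · rw [hA j]
      refine ⟨fun t => v (Sum.inr ⟨j, t⟩), fun p hp => ?_, ?_⟩
      · have := h _ (Or.inl (Or.inr (Set.mem_iUnion.2 ⟨j, p, hp, rfl⟩)))
        rwa [eval_rename] at this
      · have := h _ (Or.inr ⟨j, rfl⟩)
        simp only [map_sub, eval_X, eval_rename] at this
        exact sub_eq_zero.1 this

theorem dense_of (σ : K →+* ℂ) (hσ : ∃ a, (σ a).im ≠ 0) : DenseRange σ := by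
  obtain ⟨a, ha⟩ := hσ
  have : CharZero K := σ.charZero
  have h1 : DenseRange (Prod.map ((↑) : ℚ → ℝ) ((↑) : ℚ → ℝ)) :=
    Rat.denseRange_cast.prodMap Rat.denseRange_cast
  have h2 : Function.Surjective fun p : ℝ × ℝ => (p.1 : ℂ) + p.2 * σ a := fun z =>
    ⟨(z.re - z.im / (σ a).im * (σ a).re, z.im / (σ a).im), by
      apply Complex.ext <;> simp [ha]⟩
  have h3 := h2.denseRange.comp h1 (by fun_prop)
  refine Dense.mono ?_ h3
  rintro _ ⟨⟨p, q⟩, rfl⟩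
  exact ⟨p + q * a, by simp⟩

/-- A Diophantine set with an interior point that is not dense gives a bounded Diophantine
neighbourhood of zero. -/
theorem bdd_nhd (σ : K →+* ℂ) (hσ : ∃ a, (σ a).im ≠ 0) {D : Set K} (hD : Diophantine D)
    {a : K} {ε : ℝ} (hε : 0 < ε) (h1 : ∀ x, ‖σ x - σ a‖ < ε → x ∈ D) (h2 : ¬Dense (σ '' D)) :
    ∃ (E : Set K) (r R : ℝ), Diophantine E ∧ 0 < r ∧ 0 < R ∧ (∀ x, ‖σ x‖ < r → x ∈ E) ∧
      ∀ x ∈ E, ‖σ x‖ ≤ R := by
  rw [Metric.dense_iff] at h2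
  push Not at h2
  obtain ⟨z, ρ, hρ, hz⟩ := h2
  obtain ⟨b, hb⟩ := Metric.denseRange_iff.1 (dense_of σ hσ) z (ρ / 2) (by positivity)
  have far : ∀ x ∈ D, ρ / 2 ≤ ‖σ x - σ b‖ := fun x hx => by
    have h3 : ρ ≤ dist (σ x) z := by
      by_contra h
      exact (Set.eq_empty_iff_forall_notMem.1 hz) (σ x) ⟨not_le.1 h, x, hx, rfl⟩
    have := dist_triangle (σ x) (σ b) z
    rw [dist_comm] at hb
    rw [← dist_eq_norm]; linarith
  have hab : σ a - σ b ≠ 0 := fun h => by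
    have := far a (h1 a (by simpa using hε)); rw [h, norm_zero] at this; linarith
  have hc : ContinuousAt (fun y : ℂ => σ b + (y + (σ a - σ b)⁻¹)⁻¹) 0 :=
    continuousAt_const.add (ContinuousAt.inv₀ (by fun_prop) (by simpa using hab))
  obtain ⟨r, hr, hr'⟩ := Metric.continuousAt_iff.1 hc ε hε
  refine ⟨_, min r ‖(σ a - σ b)⁻¹‖, 2 / ρ + ‖(σ a - σ b)⁻¹‖,
    hD.comp (β := Fin 2) (J := Unit) 0 {(X 0 + C (a - b)⁻¹) * (X 1 - C b) - 1}
      (Set.finite_singleton _) fun _ => X 1, lt_min hr (by simpa using hab), by positivity,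
    fun x hx => ?_, ?_⟩
  · have h4 : x + (a - b)⁻¹ ≠ 0 := fun h => by
      rw [eq_neg_of_add_eq_zero_left h] at hx
      simp at hx
    refine ⟨![x, b + (x + (a - b)⁻¹)⁻¹], rfl, ?_, fun _ => h1 _ ?_⟩
    · rintro p rfl
      simp [h4]
    · have := hr' (x := σ x) (by simpa using (lt_min_iff.1 hx).1)
      simpa [dist_eq_norm] using this
  · rintro _ ⟨v, rfl, h3, h4⟩
    have h5 := congrArg σ (h3 _ rfl)
    have h6 := far _ (h4 ())
    simp only [map_sub, map_mul, map_add, eval_X, eval_C, map_one, map_zero, sub_eq_zero,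
      map_inv₀] at h5 h6
    have h7 : ‖σ (v 0) + (σ a - σ b)⁻¹‖ ≤ 2 / ρ := by
      have := congrArg norm h5
      rw [norm_mul, norm_one] at this
      rw [le_div_iff₀ hρ]
      nlinarith [norm_nonneg (σ (v 0) + (σ a - σ b)⁻¹)]
    have := norm_sub_le (σ (v 0) + (σ a - σ b)⁻¹) (σ a - σ b)⁻¹
    rw [add_sub_cancel_right] at this
    linarith

theorem im_le {Y P u : ℂ} {c t0 t1 : ℝ} (h0 : ‖P - t0 * u‖ ≤ c) (h1 : ‖Y * P - t1 * u‖ ≤ c) :
    |Y.im| * ‖P‖ ≤ c * (1 + 2 * ‖Y‖) := by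
  have e : (Y * t0 - t1) * u = (Y * P - t1 * u) - Y * (P - t0 * u) := by ring
  have a1 : ‖(Y * t0 - t1) * u‖ ≤ c + ‖Y‖ * c := by
    rw [e]
    refine (norm_sub_le _ _).trans (add_le_add h1 ?_)
    rw [norm_mul]; exact mul_le_mul_of_nonneg_left h0 (norm_nonneg _)
  have a2 : |Y.im| * |t0| ≤ ‖Y * t0 - t1‖ := by
    have := Complex.abs_im_le_norm (Y * t0 - t1)
    simpa [abs_mul] using this
  have a3 : ‖P‖ ≤ |t0| * ‖u‖ + c := by
    have := norm_add_le ((t0 : ℂ) * u) (P - t0 * u)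
    rw [add_sub_cancel, norm_mul, Complex.norm_real, Real.norm_eq_abs] at this
    linarith
  have a4 := Complex.abs_im_le_norm Y
  have a5 : 0 ≤ c := (norm_nonneg _).trans h0
  rw [norm_mul] at a1
  nlinarith [mul_le_mul_of_nonneg_left a3 (abs_nonneg Y.im), norm_nonneg u,
    mul_le_mul_of_nonneg_right a2 (norm_nonneg u), mul_le_mul_of_nonneg_right a4 a5]

theorem lt_one {Z A B C : ℂ} {t β : ℝ} (ht : t = ‖C‖ ^ 2) (h0 : 0 < t) (h1 : β ≤ t / 100)
    (h2 : β ≤ 1 / 100) (hA : |A.im| ≤ β) (hB : |B.im| ≤ β) (hC : |C.im| ≤ β)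
    (e1 : ‖(Z - A) ^ 2 + B ^ 2‖ ≤ β ^ 2) (e2 : ‖1 - A ^ 2 - B ^ 2 - C ^ 2‖ ≤ β) :
    ‖Z‖ < 1 := by
  have hβ : 0 ≤ β := (abs_nonneg _).trans hA
  have key : ∀ B' : ℂ, |B'.im| ≤ β → B' ^ 2 = B ^ 2 →
      ‖Z - A - Complex.I * B'‖ ≤ β → ‖Z‖ < 1 := by
    intro B' hB' hsq hz
    have r1 := (abs_le.1 ((Complex.abs_re_le_norm _).trans e2)).1
    rw [← hsq] at r1
    have r2 : t = C.re * C.re + C.im * C.im := by
      rw [ht, ← Complex.normSq_eq_norm_sq, Complex.normSq_apply]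
    simp only [sq, Complex.sub_re, Complex.one_re, Complex.mul_re] at r1
    have sq' : ∀ x : ℝ, |x| ≤ β → x * x ≤ β / 100 := fun x hx => by
      have := abs_le.1 hx
      nlinarith
    have s1 := sq' _ hA
    have s2 := sq' _ hB'
    have s3 := sq' _ hC
    have r3 : ‖(A.re : ℂ) + Complex.I * B'.re‖ ≤ 1 - t / 4 := by
      refine abs_le_of_sq_le_sq' ?_
        (by nlinarith [mul_self_nonneg A.re, mul_self_nonneg B'.re]) |>.2
      rw [← Complex.normSq_eq_norm_sq, Complex.normSq_apply]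
      simp
      nlinarith [sq_nonneg t]
    have r4 : Z = ((A.re : ℂ) + Complex.I * B'.re) + (Z - A - Complex.I * B') +
        (A.im : ℂ) * Complex.I - (B'.im : ℂ) := by
      apply Complex.ext <;> simp
      ring
    have r5 : ‖Z‖ ≤ ‖(A.re : ℂ) + Complex.I * B'.re‖ + ‖Z - A - Complex.I * B'‖ + |A.im| +
        |B'.im| := by
      conv_lhs => rw [r4]
      refine (norm_sub_le _ _).trans (add_le_add ((norm_add_le _ _).trans
        (add_le_add (norm_add_le _ _) ?_)) ?_) <;> simp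
    linarith
  have e : (Z - A) ^ 2 + B ^ 2 = (Z - A - Complex.I * B) * (Z - A - Complex.I * (-B)) := by
    linear_combination (B ^ 2) * Complex.I_sq
  rw [e, norm_mul] at e1
  by_cases h : ‖Z - A - Complex.I * B‖ ≤ β
  · exact key B hB rfl h
  · refine key (-B) (by simpa using hB) (by ring) ?_
    by_contra h'
    nlinarith [not_le.1 h, not_le.1 h']

theorem lim_div {f : ℝ → ℂ} {w : ℂ} {c : ℝ} (h : ∀ τ : ℝ, ‖f τ - τ * w‖ ≤ c) :
    Tendsto (fun τ : ℝ => f τ / τ) atTop (𝓝 w) := by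
  rw [tendsto_iff_norm_sub_tendsto_zero]
  refine squeeze_zero' (Eventually.of_forall fun _ => norm_nonneg _) ?_
    (tendsto_const_nhds.div_atTop (a := c) tendsto_id)
  filter_upwards [eventually_gt_atTop 0] with τ hτ
  have : f τ / τ - w = (f τ - τ * w) / τ := by
    have : (τ : ℂ) ≠ 0 := by exact_mod_cast hτ.ne'
    field_simp
  rw [this, norm_div, Complex.norm_real, Real.norm_eq_abs, abs_of_pos hτ]
  exact div_le_div_of_nonneg_right (h τ) hτ.le

theorem lim_ratio {f g : ℝ → ℂ} {w u : ℂ} {c c' : ℝ} (hu : u ≠ 0)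
    (hf : ∀ τ : ℝ, ‖f τ - τ * (w * u)‖ ≤ c) (hg : ∀ τ : ℝ, ‖g τ - τ * u‖ ≤ c') :
    Tendsto (fun τ : ℝ => f τ / g τ) atTop (𝓝 w) := by
  have := (lim_div hf).div (lim_div hg) hu
  rw [mul_div_cancel_right₀ _ hu] at this
  refine this.congr' ?_
  filter_upwards [eventually_gt_atTop 0] with τ hτ
  have : (τ : ℂ) ≠ 0 := by exact_mod_cast hτ.ne'
  simp only [Pi.div_apply]
  rw [div_div_div_cancel_right₀ this]

theorem small (σ : K →+* ℂ) {δ : ℝ} (hδ : 0 < δ) : ∃ κ : K, 0 < ‖σ κ‖ ∧ ‖σ κ‖ < δ := by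
  obtain ⟨n, hn⟩ := exists_nat_one_div_lt hδ
  have : ‖σ (1 / ((n : K) + 1))‖ = 1 / ((n : ℝ) + 1) := by
    rw [map_div₀, map_one, map_add, map_one, map_natCast, norm_div, norm_one]
    norm_cast
  exact ⟨_, by rw [this]; positivity, this ▸ hn⟩

/-- A bounded Diophantine neighbourhood of zero and a Diophantine set at finite Hausdorff distance
from a line define the open ball. -/
theorem open_of (σ : K →+* ℂ) {E S : Set K} {r R c : ℝ} {u : ℂ} (hE : Diophantine E)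
    (hr : 0 < r) (hR : 0 < R) (E1 : ∀ x, ‖σ x‖ < r → x ∈ E) (E2 : ∀ x ∈ E, ‖σ x‖ ≤ R)
    (hS : Diophantine S) (hu : u ≠ 0) (S1 : ∀ s ∈ S, ∃ t : ℝ, ‖σ s - t * u‖ ≤ c)
    (S2 : ∀ t : ℝ, ∃ s ∈ S, ‖σ s - t * u‖ ≤ c) : Diophantine {x : K | ‖σ x‖ < 1} := by
  have hc : 0 ≤ c := by obtain ⟨s, -, h⟩ := S2 0; exact (norm_nonneg _).trans h
  obtain ⟨l, l0, l1⟩ := small σ hr
  obtain ⟨L, hL⟩ : ∃ L, L = R / ‖σ l‖ := ⟨_, rfl⟩
  have L0 : 0 < L := by rw [hL]; positivity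
  obtain ⟨N, hN⟩ : ∃ N, N = 100 * (1 + L ^ 2) := ⟨_, rfl⟩
  have N0 : 100 ≤ N := by rw [hN]; nlinarith [sq_nonneg L]
  obtain ⟨κ, k0, k1⟩ := small σ (δ := 1 / (R * N ^ 2 * (1 + c * (1 + 2 * L)))) (by positivity)
  rw [lt_div_iff₀ (by positivity)] at k1
  have := dioph_fam (β := Fin 8) (J := Fin 10) (A := ![S, S, S, S, E, E, E, E, E, E])
    (fun j => by fin_cases j <;> assumption) 0
    {X 5 * (C κ * X 4 ^ 4) * X 1 - 1, X 6 * (C κ * X 4 ^ 4) - ((X 0 - X 2) ^ 2 + X 3 ^ 2),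
      X 7 * (C κ * X 4 ^ 4) - (1 - X 2 ^ 2 - X 3 ^ 2 - X 4 ^ 2)} (Set.toFinite _)
    ![X 1, X 2 * X 1, X 3 * X 1, X 4 * X 1, X 5, X 6, X 7, C l * X 2, C l * X 3, C l * X 4]
  convert this using 2 with x
  ext x
  constructor
  · intro hx
    have hx : ‖σ x‖ < 1 := hx
    have h1 : (σ x).re ^ 2 + (σ x).im ^ 2 < 1 := by
      have : ‖σ x‖ ^ 2 < 1 := by nlinarith [norm_nonneg (σ x)]
      rw [← Complex.normSq_eq_norm_sq, Complex.normSq_apply] at this
      linarith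
    obtain ⟨g, g0, hg⟩ : ∃ g : ℝ, 0 < g ∧ g ^ 2 = 1 - (σ x).re ^ 2 - (σ x).im ^ 2 :=
      ⟨√(1 - (σ x).re ^ 2 - (σ x).im ^ 2), Real.sqrt_pos.2 (by linarith),
        Real.sq_sqrt (by linarith)⟩
    choose f f1 f2 using S2
    have lim : ∀ a : ℝ, Tendsto (fun τ : ℝ => σ (f (τ * a) / f τ)) atTop (𝓝 (a : ℂ)) := fun a => by
      simp only [map_div₀]
      exact lim_ratio hu (fun τ => by simpa [mul_assoc] using f2 (τ * a)) f2
    have lim0 : Tendsto (fun τ : ℝ => σ (1 / f τ)) atTop (𝓝 0) := by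
      simp only [map_div₀, map_one]
      exact lim_ratio (c := 1) hu (fun τ => by simp) f2
    have big : ∀ᶠ τ : ℝ in atTop, f τ ≠ 0 := by
      filter_upwards [(lim_div f2).eventually_ne hu] with τ h h0
      simp [h0] at h
    have g1 : (g : ℂ) ≠ 0 := by exact_mod_cast g0.ne'
    have k2 : σ κ * (g : ℂ) ^ 4 ≠ 0 := mul_ne_zero (norm_pos_iff.1 k0) (pow_ne_zero _ g1)
    have den := (tendsto_const_nhds (x := σ κ)).mul ((lim g).pow 4)
    have sm : ∀ {φ : ℝ → ℂ}, Tendsto φ atTop (𝓝 0) → ∀ᶠ τ in atTop,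
        ‖φ τ / (σ κ * σ (f (τ * g) / f τ) ^ 4)‖ < r := fun h =>
      (h.div den k2).norm.eventually_lt_const (by simpa using hr)
    have bd : ∀ a : ℝ, a ^ 2 ≤ 1 → ∀ᶠ τ in atTop, ‖σ l * σ (f (τ * a) / f τ)‖ < r := fun a ha =>
      ((tendsto_const_nhds (x := σ l)).mul (lim a)).norm.eventually_lt_const (by
        rw [norm_mul, Complex.norm_real, Real.norm_eq_abs]
        have := (sq_le_one_iff_abs_le_one a).1 ha
        nlinarith [abs_nonneg a])
    have z1 : (σ x - (σ x).re) ^ 2 + ((σ x).im : ℂ) ^ 2 = 0 := by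
      apply Complex.ext <;> simp [sq]
    have z2 : 1 - ((σ x).re : ℂ) ^ 2 - ((σ x).im : ℂ) ^ 2 - (g : ℂ) ^ 2 = 0 := by
      exact_mod_cast (by linarith : 1 - (σ x).re ^ 2 - (σ x).im ^ 2 - g ^ 2 = 0)
    have t1 := (((tendsto_const_nhds (x := σ x)).sub (lim (σ x).re)).pow 2).add
      ((lim (σ x).im).pow 2)
    have t2 := (((tendsto_const_nhds (x := (1 : ℂ))).sub ((lim (σ x).re).pow 2)).sub
      ((lim (σ x).im).pow 2)).sub ((lim g).pow 2)
    rw [z1] at t1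
    rw [z2] at t2
    obtain ⟨τ, b0, b1, b2, b3, b4, b5, b6, b7⟩ := (big.and ((den.eventually_ne k2).and
      ((sm lim0).and ((sm t1).and ((sm t2).and ((bd (σ x).re (by nlinarith)).and
      ((bd (σ x).im (by nlinarith)).and (bd g (by nlinarith))))))))).exists
    have w0 : κ * (f (τ * g) / f τ) ^ 4 ≠ 0 := fun h => b1 (by rw [← map_pow, ← map_mul, h, map_zero])
    obtain ⟨y1, e1⟩ : ∃ y, y = f (τ * (σ x).re) / f τ := ⟨_, rfl⟩
    obtain ⟨y2, e2⟩ : ∃ y, y = f (τ * (σ x).im) / f τ := ⟨_, rfl⟩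
    obtain ⟨y3, e3⟩ : ∃ y, y = f (τ * g) / f τ := ⟨_, rfl⟩
    rw [← e3] at w0 b2 b3 b4 b7
    rw [← e1] at b3 b4 b5
    rw [← e2] at b3 b4 b6
    refine ⟨![x, f τ, y1, y2, y3, 1 / f τ / (κ * y3 ^ 4), ((x - y1) ^ 2 + y2 ^ 2) / (κ * y3 ^ 4),
      (1 - y1 ^ 2 - y2 ^ 2 - y3 ^ 2) / (κ * y3 ^ 4)], rfl, ?_, fun j => ?_⟩
    · rintro p (rfl | rfl | rfl) <;> simp [div_mul_cancel₀ _ w0, b0]
    · fin_cases j
      · simpa using f1 _
      · simpa [e1, b0] using f1 _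
      · simpa [e2, b0] using f1 _
      · simpa [e3, b0] using f1 _
      · exact E1 _ (by simpa using b2)
      · exact E1 _ (by simpa using b3)
      · exact E1 _ (by simpa using b4)
      · exact E1 _ (by simpa using b5)
      · exact E1 _ (by simpa using b6)
      · exact E1 _ (by simpa using b7)
  · rintro ⟨v, rfl, h1, h2⟩
    have a1 := congrArg (fun z => ‖σ z‖) (sub_eq_zero.1 ((map_sub _ _ _).symm.trans
      (h1 _ (Or.inl rfl))))
    have a2 := congrArg (fun z => ‖σ z‖) (sub_eq_zero.1 ((map_sub _ _ _).symm.trans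
      (h1 _ (Or.inr (Or.inl rfl)))))
    have a3 := congrArg (fun z => ‖σ z‖) (sub_eq_zero.1 ((map_sub _ _ _).symm.trans
      (h1 _ (Or.inr (Or.inr rfl)))))
    simp only [map_mul, map_pow, map_add, map_sub, map_one, eval_X, eval_C, norm_mul, norm_pow,
      norm_one] at a1 a2 a3
    obtain ⟨t0, s0⟩ := S1 (v 1) (by simpa using h2 0)
    have d5 := E2 (v 5) (by simpa using h2 4)
    have d6 := E2 (v 6) (by simpa using h2 5)
    have d7 := E2 (v 7) (by simpa using h2 6)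
    have bd : ∀ y, l * y ∈ E → ‖σ y‖ ≤ L := fun y hy => by
      have := E2 _ hy
      rw [map_mul, norm_mul] at this
      rw [hL, le_div_iff₀ l0]; linarith
    obtain ⟨t, ht⟩ : ∃ t, t = ‖σ (v 4)‖ ^ 2 := ⟨_, rfl⟩
    have ht2 : ‖σ (v 4)‖ ^ 4 = t ^ 2 := by rw [ht]; ring
    rw [ht2] at a1 a2 a3
    have t0' : 0 < t := by
      refine lt_of_le_of_ne (by rw [ht]; positivity) fun h => ?_
      simp [← h] at a1
    have tL : t ≤ N / 100 := by
      have := bd (v 4) (by simpa using h2 9)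
      rw [ht, hN]; nlinarith [norm_nonneg (σ (v 4))]
    have N1 : 0 < N := by linarith
    have b1 : t / N ≤ 1 / 100 := by rw [div_le_iff₀ N1]; linarith
    have main : ∀ d, d ≤ R → (1 + c * (1 + 2 * L)) * (d * (‖σ κ‖ * t ^ 2)) ≤ (t / N) ^ 2 :=
      fun d hd => by
        rw [div_pow, le_div_iff₀ (by positivity)]
        calc _ = (d * (‖σ κ‖ * N ^ 2 * (1 + c * (1 + 2 * L)))) * t ^ 2 := by ring
          _ ≤ (R * (‖σ κ‖ * N ^ 2 * (1 + c * (1 + 2 * L)))) * t ^ 2 := by gcongr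
          _ ≤ 1 * t ^ 2 := by gcongr; linarith
          _ = _ := one_mul _
    have b2 : (t / N) ^ 2 ≤ t / N := by nlinarith [div_pos t0' N1]
    have cL : 0 ≤ c * (1 + 2 * L) := by positivity
    have one : ∀ d, 0 ≤ d → d ≤ R → d * (‖σ κ‖ * t ^ 2) ≤ (t / N) ^ 2 := fun d d0 hd => by
      have := main d hd
      nlinarith [mul_nonneg cL (by positivity : 0 ≤ d * (‖σ κ‖ * t ^ 2))]
    have im : ∀ y, y * v 1 ∈ S → l * y ∈ E → |(σ y).im| ≤ t / N := fun y h3 h4 => by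
      obtain ⟨t1, s1⟩ := S1 _ h3
      rw [map_mul] at s1
      have i1 := im_le s0 s1
      have i2 : c * (1 + 2 * ‖σ y‖) ≤ c * (1 + 2 * L) := by have := bd y h4; gcongr
      have i3 := main _ d5
      have i4 : 0 ≤ ‖σ (v 5)‖ * (‖σ κ‖ * t ^ 2) := by positivity
      calc |(σ y).im| = (|(σ y).im| * ‖σ (v 1)‖) * (‖σ (v 5)‖ * (‖σ κ‖ * t ^ 2)) := by
            rw [mul_assoc, mul_comm ‖σ (v 1)‖, a1, mul_one]
        _ ≤ (c * (1 + 2 * L)) * (‖σ (v 5)‖ * (‖σ κ‖ * t ^ 2)) :=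
            mul_le_mul_of_nonneg_right (i1.trans i2) i4
        _ ≤ _ := by rw [add_mul, one_mul] at i3; linarith
    exact lt_one (A := σ (v 2)) (B := σ (v 3)) ht t0' (by gcongr) b1
      (im _ (by simpa using h2 1) (by simpa using h2 7))
      (im _ (by simpa using h2 2) (by simpa using h2 8))
      (im _ (by simpa using h2 3) (by simpa using h2 9))
      (a2 ▸ one _ (norm_nonneg _) d6) (a3 ▸ (one _ (norm_nonneg _) d7).trans b2)

end Pool.Agent.Lib.MP_c40b92_nt
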