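import Pool.Agent.Lib.MP_c40b92_nt.All
import Pool.Agent.Lib.MP_c40b92_nt.Approx

namespace Pool.Agent.Lib.MP_c40b92_nt

open MvPolynomial Filter Topology Asymptotics

variable {K : Type} [Field K]

theorem near_root (p : Polynomial ℂ) {θ : ℂ} (h0 : p.eval θ = 0) (h1 : p.derivative.eval θ ≠ 0)
    (n : ℕ) : ∃ ρ C : ℝ, 0 < ρ ∧ ∀ z, ‖z - θ‖ < ρ → ∀ j : Fin n,
      ‖z ^ (j : ℕ) - θ ^ (j : ℕ)‖ ≤ C * ‖p.eval z‖ := by
  have a1 : (fun z => z - θ) =O[𝓝 θ] fun z => p.eval z := by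
    simpa [h0, Function.comp_def] using ((p.hasDerivAt θ).isTheta_sub h1).symm.isBigO
  have a2 : (fun (z : ℂ) (j : Fin n) => z ^ (j : ℕ) - θ ^ (j : ℕ)) =O[𝓝 θ] fun z => p.eval z :=
    isBigO_pi.2 fun j => (hasDerivAt_pow (j : ℕ) θ).isBigO_sub.trans a1
  obtain ⟨C, hC⟩ := a2.bound
  obtain ⟨ρ, hρ, h⟩ := Metric.eventually_nhds_iff.1 hC
  exact ⟨ρ, C, hρ, fun z hz j => (norm_le_pi_norm (fun j : Fin n => z ^ (j : ℕ) - θ ^ (j : ℕ))
    j).trans (h (by rwa [dist_eq_norm]))⟩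

/-- With a bounded Diophantine neighbourhood of zero, a Diophantine subset of a finite extension
has a Diophantine shadow in the base field at finite Hausdorff distance. -/
theorem shadow (σ : K →+* ℂ) (hσ : ∃ a, (σ a).im ≠ 0) {E : Set K} {r R : ℝ} (hE : Diophantine E)
    (hr : 0 < r) (hR : 0 < R) (E1 : ∀ x, ‖σ x‖ < r → x ∈ E) (E2 : ∀ x ∈ E, ‖σ x‖ ≤ R)
    {L : Type} [Field L] [Algebra K L] [FiniteDimensional K L] (τ : L →+* ℂ)
    (hτ : ∀ x, τ (algebraMap K L x) = σ x) {S : Set L} (hS : Diophantine S) :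
    ∃ (T : Set K) (c : ℝ), Diophantine T ∧ (∀ w ∈ T, ∃ s ∈ S, ‖σ w - τ s‖ ≤ c) ∧
      ∀ s ∈ S, ∃ w ∈ T, ‖σ w - τ s‖ ≤ c := by
  have : CharZero K := σ.charZero
  let pb := Field.powerBasisOfFiniteOfSeparable K L
  let f := minpoly K pb.gen
  have hcomp : τ.comp (algebraMap K L) = σ := RingHom.ext hτ
  have ev : ∀ g : Polynomial K, (g.map σ).eval (τ pb.gen) = τ (Polynomial.aeval pb.gen g) :=
    fun g => by rw [Polynomial.aeval_def, Polynomial.hom_eval₂, hcomp, Polynomial.eval_map]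
  have ev' : ∀ t : K, σ (f.eval t) = (f.map σ).eval (σ t) := fun t => by simp
  have f0 : (f.map σ).eval (τ pb.gen) = 0 := by rw [ev, minpoly.aeval, map_zero]
  obtain ⟨ρ, C0, hρ, near⟩ := near_root (f.map σ) f0 (by
    rw [Polynomial.derivative_map, ev, map_ne_zero]
    exact (Algebra.IsSeparable.isSeparable K pb.gen).aeval_derivative_ne_zero
      (minpoly.aeval K pb.gen)) pb.dim
  obtain ⟨κ, k0, k1⟩ := small σ (δ := ρ / (2 * (R + r))) (by positivity)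
  rw [lt_div_iff₀ (by positivity)] at k1
  have k2 : κ ≠ 0 := fun h => by simp [h] at k0
  obtain ⟨t0, ht0⟩ := Metric.denseRange_iff.1 (dense_of σ hσ) (τ pb.gen) (r * ‖σ κ‖)
    (by positivity)
  rw [dist_comm, dist_eq_norm] at ht0
  obtain ⟨m, P, i0, rfl⟩ := hS
  let g : Fin m → MvPolynomial (Bool ⊕ Fin m × Fin pb.dim) L := fun i =>
    ∑ j : Fin pb.dim, X (.inr (i, j)) * C (pb.gen ^ (j : ℕ))
  choose q hq using fun p : MvPolynomial (Fin m) L => coord (k := K) (bind₁ g p)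
  have hq' : ∀ (v : Bool ⊕ Fin m × Fin pb.dim → K) p, (∀ j, eval v (q p j) = 0) ↔
      eval (fun i => ∑ j, algebraMap K L (v (.inr (i, j))) * pb.gen ^ (j : ℕ)) p = 0 :=
    fun v p => by
      rw [← hq, ← coe_aeval_eq_eval, AlgHom.coe_toRingHom, aeval_bind₁]
      simp [g]
  have est : ∀ (c : Fin pb.dim → K) (t : K), κ⁻¹ * (t - t0) ∈ E → (∀ j, c j * f.eval t ∈ E) →
      ‖σ (∑ j, c j * t ^ (j : ℕ)) - τ (∑ j, algebraMap K L (c j) * pb.gen ^ (j : ℕ))‖ ≤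
        pb.dim * (|C0| * R) := fun c t h1 h2 => by
    have b1 := E2 _ h1
    rw [map_mul, map_inv₀, norm_mul, norm_inv, inv_mul_le_iff₀ k0, map_sub] at b1
    have b2 : ‖σ t - τ pb.gen‖ < ρ := by
      have := norm_add_le (σ t - σ t0) (σ t0 - τ pb.gen)
      rw [sub_add_sub_cancel] at this
      nlinarith [mul_pos k0 hR, mul_pos k0 hr]
    simp only [map_sum, map_mul, map_pow, hτ, ← Finset.sum_sub_distrib, ← mul_sub]
    refine (norm_sum_le _ _).trans ((Finset.sum_le_card_nsmul _ _ (|C0| * R) fun j _ => ?_).trans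
      (by simp))
    have b3 := E2 _ (h2 j)
    rw [map_mul, norm_mul, ev'] at b3
    have b4 := (near _ b2 j).trans (mul_le_mul_of_nonneg_right (le_abs_self C0) (norm_nonneg _))
    rw [norm_mul]
    calc _ ≤ ‖σ (c j)‖ * (|C0| * ‖(f.map σ).eval (σ t)‖) := by gcongr
      _ = |C0| * (‖σ (c j)‖ * ‖(f.map σ).eval (σ t)‖) := by ring
      _ ≤ _ := by gcongr
  refine ⟨_, pb.dim * (|C0| * R), hE.comp (β := Bool ⊕ Fin m × Fin pb.dim)
    (J := Option (Fin pb.dim)) (.inl true)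
    (insert (X (.inl true) - ∑ j : Fin pb.dim, X (.inr (i0, j)) * X (.inl false) ^ (j : ℕ))
      (⋃ p ∈ P, Set.range (q p)))
    ((P.finite_toSet.biUnion fun p _ => Set.finite_range _).insert _)
    fun o => o.elim (C κ⁻¹ * (X (.inl false) - C t0))
      fun j => X (.inr (i0, j)) * f.toMvPolynomial (.inl false), ?_, ?_⟩
  · rintro _ ⟨v, rfl, h1, h2⟩
    have a1 := h1 _ (Set.mem_insert _ _)
    simp only [map_sub, map_sum, map_mul, map_pow, eval_X, sub_eq_zero] at a1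
    refine ⟨_, ⟨_, fun p hp => (hq' v p).1 fun j => h1 _ (Set.mem_insert_of_mem _
      (Set.mem_biUnion hp ⟨j, rfl⟩)), rfl⟩, ?_⟩
    rw [a1]
    exact est _ _ (by simpa using h2 none) fun j => by simpa using h2 (some j)
  · rintro _ ⟨V, hV, rfl⟩
    have hc : ∀ i, ∑ j, algebraMap K L (pb.basis.repr (V i) j) * pb.gen ^ (j : ℕ) = V i :=
      fun i => by simpa [Algebra.smul_def] using pb.basis.sum_repr (V i)
    have o1 : ∀ᶠ z in 𝓝 (τ pb.gen), ‖(σ κ)⁻¹ * (z - σ t0)‖ < r :=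
      ContinuousAt.eventually_lt (by fun_prop) continuousAt_const (by
        rw [norm_mul, norm_inv, inv_mul_lt_iff₀ k0, norm_sub_rev]; linarith)
    have o2 : ∀ᶠ z in 𝓝 (τ pb.gen), ∀ j, ‖σ (pb.basis.repr (V i0) j) * (f.map σ).eval z‖ < r :=
      eventually_all.2 fun j => ContinuousAt.eventually_lt (by fun_prop) continuousAt_const
        (by simpa [f0] using hr)
    obtain ⟨_, ⟨o3, o4⟩, t, rfl⟩ := mem_closure_iff_nhds.1 (dense_of σ hσ (τ pb.gen)) _ (o1.and o2)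
    have e1 : κ⁻¹ * (t - t0) ∈ E := E1 _ (by simpa using o3)
    have e2 : ∀ j, pb.basis.repr (V i0) j * f.eval t ∈ E := fun j =>
      E1 _ (by rw [map_mul, ev']; exact o4 j)
    refine ⟨∑ j, pb.basis.repr (V i0) j * t ^ (j : ℕ), ⟨Sum.elim
      (fun b => cond b (∑ j, pb.basis.repr (V i0) j * t ^ (j : ℕ)) t)
      fun z => pb.basis.repr (V z.1) z.2, rfl, ?_, ?_⟩, ?_⟩
    · rintro p (rfl | hp)
      · simp
      · simp only [Set.mem_iUnion] at hp
        obtain ⟨p, hp, j, rfl⟩ := hp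
        refine (hq' _ p).2 ?_ j
        simpa only [Sum.elim_inr, hc] using hV p hp
    · rintro (_ | j)
      · simpa using e1
      · simpa using e2 j
    · simpa only [hc] using est _ t e1 e2

/-- The closed ball from the open one when no non-zero element is purely imaginary. -/
theorem closed_of_open (σ : K →+* ℂ) (h0 : ∀ d, (σ d).re = 0 → d = 0)
    (h : Diophantine {x : K | ‖σ x‖ < 1}) : Diophantine {x : K | ‖σ x‖ ≤ 1} := by
  have := h.comp (β := Fin 2) (J := Unit) 0 {(X 0 - X 1) * ((X 0 - 1) * (X 0 + 1))}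
    (Set.finite_singleton _) fun _ => X 1
  convert this using 2 with x
  ext x
  constructor
  · intro hx
    rcases lt_or_eq_of_le (show ‖σ x‖ ≤ 1 from hx) with h1 | h1
    · exact ⟨![x, x], rfl, by rintro p rfl; simp, fun _ => by simpa using h1⟩
    · have h2 : (σ x).re * (σ x).re + (σ x).im * (σ x).im = 1 := by
        rw [← Complex.normSq_apply, Complex.normSq_eq_norm_sq, h1, one_pow]
      have h3 := h0 ((x - 1) / (x + 1)) (by
        simp only [map_div₀, map_sub, map_add, map_one, Complex.div_re, Complex.sub_re,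
          Complex.add_re, Complex.sub_im, Complex.add_im, Complex.one_re, Complex.one_im,
          ← add_div]
        rw [div_eq_zero_iff]; left; linarith)
      refine ⟨![x, 0], rfl, ?_, fun _ => by simp⟩
      rintro p rfl
      rcases div_eq_zero_iff.1 h3 with h4 | h4 <;> simp [h4]
  · rintro ⟨v, rfl, h1, h2⟩
    have a1 := h1 _ rfl
    have a2 : ‖σ (v 1)‖ < 1 := by simpa using h2 ()
    simp only [map_mul, map_sub, map_add, map_one, eval_X, mul_eq_zero, sub_eq_zero,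
      add_eq_zero_iff_eq_neg] at a1
    show ‖σ (v 0)‖ ≤ 1
    rcases a1 with h | h | h <;> rw [h]
    · exact a2.le
    · simp
    · simp

theorem strip_of_ball (σ : K →+* ℂ) (hσ : ∃ a, (σ a).im ≠ 0)
    (h : Diophantine {x : K | ‖σ x‖ ≤ 1}) : ∃ S : Set K, Diophantine S ∧
      (∀ s ∈ S, ∃ t : ℝ, ‖σ s - t * Complex.I‖ ≤ 1) ∧
      ∀ t : ℝ, ∃ s ∈ S, ‖σ s - t * Complex.I‖ ≤ 1 := by
  have sq : ∀ a b : ℂ, ‖a‖ ≤ ‖b‖ ↔ a.re * a.re + a.im * a.im ≤ b.re * b.re + b.im * b.im :=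
    fun a b => by
      rw [← Complex.normSq_apply, ← Complex.normSq_apply, Complex.normSq_eq_norm_sq,
        Complex.normSq_eq_norm_sq, sq_le_sq₀ (norm_nonneg _) (norm_nonneg _)]
  refine ⟨_, h.comp (β := Fin 3) (J := Fin 2) 0 {X 0 - X 1 * (X 0 + 2), X 0 - X 2 * (X 0 - 2)}
    (Set.toFinite _) ![X 1, X 2], ?_, fun t => ?_⟩
  · rintro _ ⟨v, rfl, h1, h2⟩
    have a1 := congrArg (fun z => ‖σ z‖) (sub_eq_zero.1 ((map_sub _ _ _).symm.trans
      (h1 _ (Or.inl rfl))))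
    have a2 := congrArg (fun z => ‖σ z‖) (sub_eq_zero.1 ((map_sub _ _ _).symm.trans
      (h1 _ (Or.inr rfl))))
    simp only [map_mul, map_add, map_sub, map_ofNat, eval_X, norm_mul] at a1 a2
    have a3 : ‖σ (v 1)‖ ≤ 1 := by simpa using h2 0
    have a4 : ‖σ (v 2)‖ ≤ 1 := by simpa using h2 1
    have a5 := (sq _ _).1 (a1.trans_le (mul_le_of_le_one_left (norm_nonneg _) a3))
    have a6 := (sq _ _).1 (a2.trans_le (mul_le_of_le_one_left (norm_nonneg _) a4))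
    refine ⟨(σ (v 0)).im, ?_⟩
    have : σ (v 0) - (σ (v 0)).im * Complex.I = (σ (v 0)).re := by
      apply Complex.ext <;> simp
    rw [this, Complex.norm_real, Real.norm_eq_abs, abs_le]
    simp at a5 a6
    constructor <;> nlinarith
  · obtain ⟨s, hs⟩ := Metric.denseRange_iff.1 (dense_of σ hσ) (t * Complex.I) 1 one_pos
    rw [dist_comm, dist_eq_norm] at hs
    have h1 := abs_lt.1 ((Complex.abs_re_le_norm _).trans_lt hs)
    simp at h1
    have n1 : s + 2 ≠ 0 := fun h => by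
      rw [eq_neg_of_add_eq_zero_left h] at h1; simp [map_ofNat] at h1
    have n2 : s - 2 ≠ 0 := fun h => by
      rw [sub_eq_zero.1 h] at h1; simp [map_ofNat] at h1
    refine ⟨s, ⟨![s, s / (s + 2), s / (s - 2)], rfl, ?_, fun j => ?_⟩, hs.le⟩
    · rintro p (rfl | rfl) <;> simp [map_ofNat, n1, n2]
    · fin_cases j
      · have : ‖σ s‖ ≤ ‖σ s + 2‖ := (sq _ _).2 (by simp; nlinarith)
        simpa [map_ofNat] using div_le_one_of_le₀ this (norm_nonneg _)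
      · have : ‖σ s‖ ≤ ‖σ s - 2‖ := (sq _ _).2 (by simp; nlinarith)
        simpa [map_ofNat] using div_le_one_of_le₀ this (norm_nonneg _)

theorem open_of_approx (σ : K →+* ℂ) (hσ : ∃ a, (σ a).im ≠ 0) {D : Set K} (hD : Diophantine D)
    {a : K} {ε : ℝ} (hε : 0 < ε) (h1 : ∀ x, ‖σ x - σ a‖ < ε → x ∈ D) (h2 : ¬Dense (σ '' D))
    {L : Type} [Field L] [Algebra K L] [FiniteDimensional K L] (τ : L →+* ℂ)
    (hτ : ∀ x, τ (algebraMap K L x) = σ x) {S : Set L} (hS : Diophantine S) {u : ℂ} {c : ℝ}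
    (hu : u ≠ 0) (S1 : ∀ s ∈ S, ∃ t : ℝ, ‖τ s - t * u‖ ≤ c)
    (S2 : ∀ t : ℝ, ∃ s ∈ S, ‖τ s - t * u‖ ≤ c) : Diophantine {x : K | ‖σ x‖ < 1} := by
  obtain ⟨E, r, R, hE, hr, hR, E1, E2⟩ := bdd_nhd σ hσ hD hε h1 h2
  obtain ⟨T, c', hT, T1, T2⟩ := shadow σ hσ hE hr hR E1 E2 τ hτ hS
  have tri : ∀ x y z : ℂ, ‖x - y‖ ≤ c' → ‖y - z‖ ≤ c → ‖x - z‖ ≤ c' + c := fun x y z h h' =>
    (norm_sub_le_norm_sub_add_norm_sub x y z).trans (add_le_add h h')
  refine open_of σ (c := c' + c) hE hr hR E1 E2 hT hu (fun w hw => ?_) fun t => ?_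
  · obtain ⟨s, hs, h⟩ := T1 w hw
    obtain ⟨t, h'⟩ := S1 s hs
    exact ⟨t, tri _ _ _ h h'⟩
  · obtain ⟨s, hs, h'⟩ := S2 t
    obtain ⟨w, hw, h⟩ := T2 s hs
    exact ⟨w, hw, tri _ _ _ h h'⟩

theorem ball_iff_approx (σ : K →+* ℂ) (hσ : ∃ a, (σ a).im ≠ 0) (h0 : ∀ d, (σ d).re = 0 → d = 0) :
    Diophantine {x : K | ‖σ x‖ ≤ 1} ↔
      (∃ (D : Set K) (a : K) (ε : ℝ), Diophantine D ∧ 0 < ε ∧
        (∀ x, ‖σ x - σ a‖ < ε → x ∈ D) ∧ ¬Dense (σ '' D)) ∧
      ∃ (L : Type) (_ : Field L) (_ : Algebra K L) (_ : FiniteDimensional K L) (τ : L →+* ℂ)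
        (S : Set L) (u : ℂ) (c : ℝ), (∀ x, τ (algebraMap K L x) = σ x) ∧ Diophantine S ∧ u ≠ 0 ∧
        (∀ s ∈ S, ∃ t : ℝ, ‖τ s - t * u‖ ≤ c) ∧ ∀ t : ℝ, ∃ s ∈ S, ‖τ s - t * u‖ ≤ c := by
  constructor
  · intro h
    obtain ⟨S, hS, S1, S2⟩ := strip_of_ball σ hσ h
    refine ⟨⟨_, 0, 1, h, one_pos, fun x hx => by simpa using hx.le, fun hd => ?_⟩, K, inferInstance,
      inferInstance, inferInstance, σ, S, Complex.I, 1, fun _ => rfl, hS, Complex.I_ne_zero, S1, S2⟩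
    obtain ⟨_, h1, x, hx, rfl⟩ := Metric.dense_iff.1 hd 2 1 one_pos
    have := norm_sub_norm_le 2 (σ x)
    rw [Metric.mem_ball, dist_comm, dist_eq_norm] at h1
    have hx : ‖σ x‖ ≤ 1 := hx
    rw [Complex.norm_ofNat] at this
    linarith
  · rintro ⟨⟨D, a, ε, hD, hε, h1, h2⟩, L, _, _, _, τ, S, u, c, hτ, hS, hu, S1, S2⟩
    exact closed_of_open σ h0 (open_of_approx σ hσ hD hε h1 h2 τ hτ hS hu S1 S2)

end Pool.Agent.Lib.MP_c40b92_nt
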