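import Pool.Agent.Lib.MP_c40b92_nt.All

namespace Pool.Agent.Lib.MP_c40b92_nt

open MvPolynomial

section
variable {k : Type} [Field k]

theorem Diophantine.preimage {A : Set k} (hA : Diophantine A) (g : k ≃+* k) :
    Diophantine {x | g x ∈ A} := by
  classical
  obtain ⟨n, P, i, rfl⟩ := hA
  refine ⟨n, P.image (MvPolynomial.map (g.symm : k →+* k)), i, ?_⟩
  have key : ∀ (v : Fin n → k) (p : MvPolynomial (Fin n) k),
      g (eval v (MvPolynomial.map (g.symm : k →+* k) p)) = eval (fun j => g (v j)) p := by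
    intro v p
    induction p using MvPolynomial.induction_on with
    | C a => simp
    | add p q hp hq => simp only [map_add, hp, hq]
    | mul_X p j hp => simp only [map_mul, hp, map_X, eval_X]
  ext x
  constructor
  · rintro ⟨v, hv, hx⟩
    refine ⟨fun j => g.symm (v j), fun p hp => ?_, ?_⟩
    · obtain ⟨q, hq, rfl⟩ := Finset.mem_image.1 hp
      apply g.injective
      rw [key, map_zero]
      simpa using hv q hq
    · have hx : v i = g x := hx
      simp [hx]
  · rintro ⟨v, hv, rfl⟩
    refine ⟨fun j => g (v j), fun p hp => ?_, rfl⟩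
    rw [← key, hv _ (Finset.mem_image_of_mem _ hp), map_zero]

theorem dioph_univ : Diophantine (Set.univ : Set k) :=
  ⟨1, ∅, 0, by
    ext x
    simp only [Set.mem_univ, Finset.notMem_empty, false_imp_iff, implies_true, Set.ofPred_true,
      Set.image_univ, Set.mem_range, true_iff]
    exact ⟨fun _ => x, rfl⟩⟩

theorem Diophantine.inter {A B : Set k} (hA : Diophantine A) (hB : Diophantine B) :
    Diophantine (A ∩ B) := by
  obtain ⟨n, P, i, rfl⟩ := hB
  have := hA.comp (β := Fin n) (J := Unit) i (P : Set _) P.finite_toSet fun _ => X i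
  convert this using 2 with x
  ext x
  constructor
  · rintro ⟨h1, v, hv, rfl⟩
    exact ⟨v, rfl, hv, fun _ => by simpa using h1⟩
  · rintro ⟨v, rfl, hv, h⟩
    exact ⟨by simpa using h (), v, hv, rfl⟩

theorem dioph_biInter {ι : Type} (s : Finset ι) (A : ι → Set k) (h : ∀ i, Diophantine (A i)) :
    Diophantine {x | ∀ i ∈ s, x ∈ A i} := by
  classical
  induction s using Finset.induction_on with
  | empty => simpa using dioph_univ
  | insert a s _ ih =>
    convert (h a).inter ih using 2 with x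
    ext x
    simp

end

variable {K : Type} [Field K] [NumberField K]

theorem real_of_ball (σ : K →+* ℂ) {d : K} (d0 : d ≠ 0) (d1 : (σ d).re = 0)
    (h : Diophantine {x | ‖σ x‖ ≤ 1}) : Diophantine {x | (σ x).im = 0} := by
  have d2 : (σ d).im ≠ 0 := fun h2 => d0 (σ.injective (Complex.ext (by simpa) (by simpa)))
  have := h.comp (β := Fin 3) (J := Fin 2) 0
    {X 0 + C d - X 1 * (X 0 - C d), X 0 - C d - X 2 * (X 0 + C d)} (Set.toFinite _) ![X 1, X 2]
  convert this using 2 with t
  ext t
  have key : ‖σ (t + d)‖ ^ 2 - ‖σ (t - d)‖ ^ 2 = 4 * (σ t).im * (σ d).im := by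
    rw [← Complex.normSq_eq_norm_sq, ← Complex.normSq_eq_norm_sq]
    simp [Complex.normSq_apply, d1]; ring
  constructor
  · intro ht
    have ht : (σ t).im = 0 := ht
    have n1 : t - d ≠ 0 := fun h => d2 (by rw [← sub_eq_zero.1 h]; exact ht)
    have n2 : t + d ≠ 0 := fun h => d2 (by rw [eq_neg_of_add_eq_zero_right h]; simp [ht])
    have e : ‖σ (t + d)‖ = ‖σ (t - d)‖ := by
      rw [ht, mul_zero, zero_mul, sub_eq_zero] at key
      exact (pow_left_inj₀ (norm_nonneg _) (norm_nonneg _) two_ne_zero).1 key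
    refine ⟨![t, (t + d) / (t - d), (t - d) / (t + d)], rfl, ?_, ?_⟩
    · rintro p (rfl | rfl) <;> simp [n1, n2]
    · intro j
      fin_cases j
      · simpa [← map_add, ← map_sub, e] using div_self_le_one _
      · simpa [← map_add, ← map_sub, e] using div_self_le_one _
  · rintro ⟨v, rfl, h1, h2⟩
    have a1 := h1 _ (Or.inl rfl)
    have a2 := h1 _ (Or.inr rfl)
    have a3 : ‖σ (v 1)‖ ≤ 1 := by simpa using h2 0
    have a4 : ‖σ (v 2)‖ ≤ 1 := by simpa using h2 1
    simp only [map_sub, map_add, map_mul, eval_X, eval_C, sub_eq_zero] at a1 a2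
    have a5 : ‖σ (v 0 + d)‖ ≤ ‖σ (v 0 - d)‖ := by
      rw [a1, map_mul, norm_mul]; exact mul_le_of_le_one_left (norm_nonneg _) a3
    have a6 : ‖σ (v 0 - d)‖ ≤ ‖σ (v 0 + d)‖ := by
      rw [a2, map_mul, norm_mul]; exact mul_le_of_le_one_left (norm_nonneg _) a4
    rw [le_antisymm a5 a6, sub_self] at key
    simpa [d2] using key

theorem core_of_real (σ : K →+* ℂ) (h : Diophantine {x | (σ x).im = 0}) :
    Diophantine {x | ∀ g : K ≃+* K, (σ (g x)).im = 0} := by
  have := dioph_biInter (Finset.univ : Finset (K ≃ₐ[ℚ] K)) (fun g => {x | (σ (g x)).im = 0})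
    fun g => h.preimage (g : K ≃+* K)
  convert this using 2 with x
  ext x
  constructor
  · intro hx g _
    exact hx (g : K ≃+* K)
  · intro hx g
    exact hx (AlgEquiv.ofRingEquiv (f := g) fun q => by simp) (Finset.mem_univ _)

theorem balls_iff_core (S : Set (K →+* ℂ)) (hS : ∀ σ ∈ S, ∃ d : K, d ≠ 0 ∧ (σ d).re = 0) :
    (∀ σ ∈ S, Diophantine {x : K | ‖σ x‖ ≤ 1}) ↔
      Diophantine {x : K | ∀ σ ∈ S, ∀ g : K ≃+* K, (σ (g x)).im = 0} := by
  constructor
  · intro h
    have := dioph_biInter (Finset.univ : Finset (Set.toFinite S).toFinset)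
      (fun σ => {x | ∀ g : K ≃+* K, (σ.1 (g x)).im = 0}) fun σ => by
        have hσ : σ.1 ∈ S := (Set.toFinite S).mem_toFinset.1 σ.2
        obtain ⟨d, d0, d1⟩ := hS _ hσ
        exact core_of_real _ (real_of_ball _ d0 d1 (h _ hσ))
    convert this using 2 with x
    ext x
    constructor
    · intro hx σ _
      exact hx _ ((Set.toFinite S).mem_toFinset.1 σ.2)
    · intro hx σ hσ
      exact hx ⟨σ, (Set.toFinite S).mem_toFinset.2 hσ⟩ (Finset.mem_univ _)
  · intro h σ hσ
    exact ball_of_rat σ h (fun x hx => hx σ hσ (RingEquiv.refl K)) fun q τ _ g => by simp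

end Pool.Agent.Lib.MP_c40b92_nt
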