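import Mathlib

namespace Pool.Agent.Lib.MP_c40b92_nt

/-- `A ⊆ k` is Diophantine over `k`: it is the projection onto one coordinate of the set of common
zeros in `k^n` of finitely many polynomials over `k`. -/
def Diophantine {k : Type} [Field k] (A : Set k) : Prop :=
  ∃ (n : ℕ) (P : Finset (MvPolynomial (Fin n) k)) (i : Fin n),
    A = (fun v : Fin n → k => v i) '' {v | ∀ p ∈ P, MvPolynomial.eval v p = 0}

end Pool.Agent.Lib.MP_c40b92_nt
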