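import Pool.Agent.Lib.MP_c40b92_nt.Defs

namespace Pool.Agent.Lib.MP_c40b92_nt

open MvPolynomial

section
variable {k : Type} [Field k]

theorem dioph_of {β : Type} [Finite β] (i : β) (P : Set (MvPolynomial β k)) (hP : P.Finite) :
    Diophantine {x | ∃ v : β → k, v i = x ∧ ∀ p ∈ P, eval v p = 0} := by
  classical
  obtain ⟨n, ⟨e⟩⟩ := Finite.exists_equiv_fin β
  refine ⟨n, hP.toFinset.image (rename e), e i, ?_⟩
  ext x
  constructor
  · rintro ⟨v, rfl, hv⟩
    refine ⟨v ∘ e.symm, fun p hp => ?_, by simp⟩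
    obtain ⟨q, hq, rfl⟩ := Finset.mem_image.1 hp
    rw [eval_rename]
    simpa [Function.comp_def] using hv q (hP.mem_toFinset.1 hq)
  · rintro ⟨v, hv, rfl⟩
    refine ⟨v ∘ e, rfl, fun p hp => ?_⟩
    rw [← eval_rename]
    exact hv _ (Finset.mem_image_of_mem _ (hP.mem_toFinset.2 hp))

theorem Diophantine.comp {A : Set k} (hA : Diophantine A) {β J : Type} [Finite β] [Finite J] (i : β)
    (P : Set (MvPolynomial β k)) (hP : P.Finite) (q : J → MvPolynomial β k) :
    Diophantine {x | ∃ v : β → k, v i = x ∧ (∀ p ∈ P, eval v p = 0) ∧ ∀ j, eval v (q j) ∈ A} := by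
  obtain ⟨n, Q, i0, rfl⟩ := hA
  have := dioph_of (k := k) (β := β ⊕ J × Fin n) (Sum.inl i)
    (rename Sum.inl '' P ∪ (⋃ j : J, rename (fun t => Sum.inr (j, t)) '' (Q : Set _)) ∪
      Set.range fun j => X (Sum.inr (j, i0)) - rename Sum.inl (q j))
    (((hP.image _).union (Set.finite_iUnion fun j => Q.finite_toSet.image _)).union
      (Set.finite_range _))
  convert this using 2 with x
  ext x
  constructor
  · rintro ⟨v, rfl, h1, h2⟩
    choose w hw hw' using h2
    refine ⟨Sum.elim v fun z => w z.1 z.2, rfl, ?_⟩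
    rintro p ((⟨p, hp, rfl⟩ | hp) | ⟨j, rfl⟩)
    · rw [eval_rename]; exact h1 p hp
    · obtain ⟨j, p, hp', rfl⟩ := Set.mem_iUnion.1 hp
      rw [eval_rename]; exact hw j p hp'
    · simp only [map_sub, eval_X, Sum.elim_inr, eval_rename, Sum.elim_comp_inl]
      exact sub_eq_zero.2 (hw' j)
  · rintro ⟨v, rfl, h⟩
    refine ⟨v ∘ Sum.inl, rfl, fun p hp => ?_, fun j => ⟨fun t => v (Sum.inr (j, t)), fun p hp => ?_, ?_⟩⟩
    · rw [← eval_rename]; exact h _ (Or.inl (Or.inl ⟨p, hp, rfl⟩))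
    · have := h _ (Or.inl (Or.inr (Set.mem_iUnion.2 ⟨j, p, hp, rfl⟩)))
      rwa [eval_rename] at this
    · have := h _ (Or.inr ⟨j, rfl⟩)
      simp only [map_sub, eval_X, eval_rename] at this
      exact sub_eq_zero.1 this

end

open Polynomial in
open scoped ComplexOrder in
theorem coeff_nonneg (s : Multiset ℂ) (hs : ∀ r ∈ s, 0 < r.re) (j : ℕ) :
    0 ≤ ((s.map fun r => (-Polynomial.X - Polynomial.C r)).prod *
      (s.map fun r => (-Polynomial.X - Polynomial.C (starRingEnd ℂ r))).prod).coeff j := by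
  have mul : ∀ p q : ℂ[X], (∀ j, 0 ≤ p.coeff j) → (∀ j, 0 ≤ q.coeff j) → ∀ j, 0 ≤ (p * q).coeff j := by
    intro p q hp hq j
    rw [Polynomial.coeff_mul]
    exact Finset.sum_nonneg fun c _ => mul_nonneg (hp _) (hq _)
  induction s using Multiset.induction_on generalizing j with
  | empty =>
    simp only [Multiset.map_zero, Multiset.prod_zero, mul_one, Polynomial.coeff_one]
    split_ifs <;> simp
  | cons r s ih =>
    simp only [Multiset.map_cons, Multiset.prod_cons]
    rw [mul_mul_mul_comm]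
    refine mul _ _ (fun j => ?_) (ih fun r hr => hs r (Multiset.mem_cons_of_mem hr)) j
    have e : (-Polynomial.X - Polynomial.C r) * (-Polynomial.X - Polynomial.C (starRingEnd ℂ r))
        = Polynomial.X ^ 2 + (Polynomial.C (r + starRingEnd ℂ r) * Polynomial.X ^ 1 +
          Polynomial.C (r * starRingEnd ℂ r)) := by
      simp only [map_add, map_mul]; ring
    have h1 : (0 : ℂ) ≤ r + starRingEnd ℂ r := by
      rw [Complex.add_conj]
      exact_mod_cast (by linarith [hs r (Multiset.mem_cons_self _ _)] : 0 ≤ 2 * r.re)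
    have h2 : (0 : ℂ) ≤ r * starRingEnd ℂ r := by
      rw [Complex.mul_conj]; exact_mod_cast Complex.normSq_nonneg r
    rw [e, Polynomial.coeff_add, Polynomial.coeff_add, Polynomial.coeff_C_mul, Polynomial.coeff_X_pow,
      Polynomial.coeff_X_pow, Polynomial.coeff_C]
    refine add_nonneg ?_ (add_nonneg (mul_nonneg h1 ?_) ?_) <;> split_ifs <;> simp [h2]

theorem four_sq {q : ℚ} (hq : 0 ≤ q) : ∃ a : Fin 4 → ℚ, q = ∑ i, a i ^ 2 := by
  obtain ⟨a, b, c, d, h⟩ := Nat.sum_four_squares (q.num.toNat * q.den)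
  have hd : (q.den : ℚ) ≠ 0 := by exact_mod_cast q.den_nz
  refine ⟨![a / q.den, b / q.den, c / q.den, d / q.den], ?_⟩
  have h1 : ((a : ℚ) ^ 2 + b ^ 2 + c ^ 2 + d ^ 2) = q * q.den * q.den := by
    have h2 : ((q.num.toNat : ℤ) : ℚ) = q * q.den := by
      rw [Int.toNat_of_nonneg (Rat.num_nonneg.2 hq), Rat.mul_den_eq_num]
    rw [← h2]; exact_mod_cast h
  simp only [Fin.sum_univ_four, Matrix.cons_val]
  field_simp
  linear_combination -h1

variable {K : Type} [Field K] [NumberField K]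

open Polynomial in
open scoped ComplexOrder in
theorem exists_poly (u : K) (hu : ∀ τ : K →+* ℂ, 0 < (τ u).re) :
    ∃ H : ℚ[X], (∀ j, 0 ≤ H.coeff j) ∧ H ≠ 0 ∧ H.natDegree ≤ 2 * Module.finrank ℚ K ∧
      Polynomial.aeval (-u) H = 0 := by
  have hi : IsIntegral ℚ u := Algebra.IsIntegral.isIntegral u
  have hm := minpoly.monic hi
  refine ⟨(minpoly ℚ u).comp (-Polynomial.X) ^ 2, fun j => ?_, ?_, ?_, ?_⟩
  · set s := ((minpoly ℚ u).map (algebraMap ℚ ℂ)).roots with hs
    have h1 : (minpoly ℚ u).map (algebraMap ℚ ℂ) = (s.map fun r => Polynomial.X - Polynomial.C r).prod :=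
      (IsAlgClosed.splits _).eq_prod_roots_of_monic (hm.map _)
    have h2 : ((minpoly ℚ u).comp (-Polynomial.X)).map (algebraMap ℚ ℂ)
        = (s.map fun r => -Polynomial.X - Polynomial.C r).prod := by
      rw [Polynomial.map_comp, h1, Polynomial.multiset_prod_comp, Multiset.map_map]
      simp
    have h3 : ((minpoly ℚ u).comp (-Polynomial.X)).map (algebraMap ℚ ℂ)
        = (s.map fun r => -Polynomial.X - Polynomial.C (starRingEnd ℂ r)).prod := by
      have e : algebraMap ℚ ℂ = (starRingEnd ℂ).comp (algebraMap ℚ ℂ) := Subsingleton.elim _ _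
      rw [e, ← Polynomial.map_map, h2, Polynomial.map_multiset_prod, Multiset.map_map]
      simp
    have h4 := coeff_nonneg s (fun r hr => by
      have : r ∈ (minpoly ℚ u).rootSet ℂ := by
        rw [Polynomial.mem_rootSet', ← Polynomial.eval_map_algebraMap]
        exact (Polynomial.mem_roots'.1 hr)
      rw [← NumberField.Embeddings.range_eval_eq_rootSet_minpoly] at this
      obtain ⟨τ, rfl⟩ := this
      exact hu τ) j
    rw [← h2, ← h3, ← Polynomial.map_mul, Polynomial.coeff_map, ← pow_two] at h4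
    rw [eq_ratCast, ← Complex.ofReal_ratCast, Complex.zero_le_real] at h4
    exact_mod_cast h4
  · refine pow_ne_zero _ fun h => ?_
    rw [Polynomial.comp_eq_zero_iff] at h
    rcases h with h | h
    · exact hm.ne_zero h
    · have := congrArg (fun p => Polynomial.coeff p 1) h.2
      simp at this
  · rw [Polynomial.natDegree_pow, Polynomial.natDegree_comp, Polynomial.natDegree_neg,
      Polynomial.natDegree_X, mul_one]
    exact Nat.mul_le_mul_left _ (minpoly.natDegree_le u)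
  · simp [Polynomial.aeval_comp]

theorem sum_parity {M : Type} [AddCommMonoid M] (f : ℕ → M) (n : ℕ) :
    ∑ j ∈ Finset.range (2 * n), f j = ∑ i : Fin n, f (2 * i) + ∑ i : Fin n, f (2 * i + 1) := by
  induction n with
  | zero => simp
  | succ n ih =>
    rw [show 2 * (n + 1) = 2 * n + 1 + 1 by ring, Finset.sum_range_succ, Finset.sum_range_succ, ih,
      Fin.sum_univ_castSucc, Fin.sum_univ_castSucc]
    simp only [Fin.val_castSucc, Fin.val_last]
    abel

/-- the index set of the squares -/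
abbrev Idx (K : Type) [Field K] [NumberField K] : Type :=
  (Fin (Module.finrank ℚ K + 1) × Fin (Module.finrank ℚ K + 1)) × Fin 4

theorem landau (σ : K →+* ℂ) (u : K) (h0 : (σ u).im = 0) (hu : ∀ τ : K →+* ℂ, 0 < (τ u).re) :
    ∃ w : Idx K → K, (∀ i, (σ (w i)).im = 0) ∧ u = ∑ i, w i ^ 2 := by
  obtain ⟨H, h1, h2, h3, h4⟩ := exists_poly u hu
  rw [Polynomial.aeval_eq_sum_range' (n := 2 * (Module.finrank ℚ K + 1)) (by omega), sum_parity] at h4
  obtain ⟨r, hr⟩ : ∃ r : ℝ, σ u = r := ⟨(σ u).re, Complex.ext (by simp) (by simp [h0])⟩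
  have hr0 : 0 < r := by simpa [hr] using hu σ
  obtain ⟨E, hE⟩ : ∃ E : K, E = ∑ i : Fin (Module.finrank ℚ K + 1), H.coeff (2 * i) * u ^ (2 * (i : ℕ)) :=
    ⟨_, rfl⟩
  obtain ⟨O, hO⟩ : ∃ O : K, O = ∑ i : Fin (Module.finrank ℚ K + 1), H.coeff (2 * i + 1) * u ^ (2 * (i : ℕ)) :=
    ⟨_, rfl⟩
  have e1 : E = u * O := by
    rw [← sub_eq_zero, ← h4, hE, hO, Finset.mul_sum, sub_eq_add_neg, ← Finset.sum_neg_distrib]
    congr 1 <;> refine Finset.sum_congr rfl fun i _ => ?_
    · rw [Rat.smul_def, (even_two_mul _).neg_pow]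
    · rw [Rat.smul_def, (odd_two_mul_add_one _).neg_pow]; ring
  have hO' : σ O = ((∑ i : Fin (Module.finrank ℚ K + 1), H.coeff (2 * i + 1) * r ^ (2 * (i : ℕ)) : ℝ) : ℂ) := by
    rw [hO]; simp [hr]
  have hO0 : O ≠ 0 := by
    intro h
    have hE' : σ E = ((∑ i : Fin (Module.finrank ℚ K + 1), H.coeff (2 * i) * r ^ (2 * (i : ℕ)) : ℝ) : ℂ) := by
      rw [hE]; simp [hr]
    rw [e1, h, mul_zero, map_zero, eq_comm, Complex.ofReal_eq_zero, Finset.sum_eq_zero_iff_of_nonneg
      fun i _ => mul_nonneg (by exact_mod_cast h1 _) (by positivity)] at hE'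
    rw [h, map_zero, eq_comm, Complex.ofReal_eq_zero, Finset.sum_eq_zero_iff_of_nonneg
      fun i _ => mul_nonneg (by exact_mod_cast h1 _) (by positivity)] at hO'
    apply h2
    rw [← Polynomial.leadingCoeff_eq_zero, Polynomial.leadingCoeff]
    rcases Nat.even_or_odd' H.natDegree with ⟨j, hj | hj⟩
    · have := hE' ⟨j, by omega⟩ (Finset.mem_univ _)
      rw [hj]
      simpa [hr0.ne'] using this
    · have := hO' ⟨j, by omega⟩ (Finset.mem_univ _)
      rw [hj]
      simpa [hr0.ne'] using this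
  choose a ha using fun z : Fin (Module.finrank ℚ K + 1) × Fin (Module.finrank ℚ K + 1) =>
    four_sq (mul_nonneg (h1 (2 * z.1)) (h1 (2 * z.2 + 1)))
  refine ⟨fun z => a z.1 z.2 * u ^ ((z.1.1 : ℕ) + z.1.2) / O, fun z => ?_, ?_⟩
  · rw [map_div₀, map_mul, map_pow, hr, hO', map_ratCast]
    norm_cast
  · have e2 : u = E * O / O ^ 2 := by rw [e1]; field_simp
    conv_lhs => rw [e2]
    rw [Fintype.sum_prod_type, div_eq_iff (pow_ne_zero 2 hO0), Finset.sum_mul]
    conv_lhs => rw [hE, hO, Finset.sum_mul_sum, ← Fintype.sum_prod_type']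
    refine Finset.sum_congr rfl fun z _ => ?_
    have e3 : ((H.coeff (2 * z.1) : K) * H.coeff (2 * z.2 + 1)) = ∑ i, (a z i : K) ^ 2 := by
      exact_mod_cast congrArg (Rat.cast : ℚ → K) (ha z)
    simp only [div_pow, mul_pow]
    rw [← Finset.sum_div, div_mul_cancel₀ _ (pow_ne_zero 2 hO0), ← Finset.sum_mul, ← e3]
    ring

theorem approx (σ : K →+* ℂ) {η : ℝ} (hη : 0 < η) : ∃ g : K, ‖σ g‖ < η ∧
    ∀ τ : K →+* ℂ, τ ≠ σ → NumberField.ComplexEmbedding.conjugate τ ≠ σ → ‖τ g - 1‖ < η := by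
  classical
  obtain ⟨g, hg⟩ := (NumberField.InfinitePlace.denseRange_algebraMap_pi K).exists_dist_lt
    (fun v => if v = NumberField.InfinitePlace.mk σ then 0 else 1) hη
  rw [dist_pi_lt_iff hη] at hg
  refine ⟨g, ?_, fun τ h1 h2 => ?_⟩
  · have := hg (NumberField.InfinitePlace.mk σ)
    rw [if_pos rfl, dist_comm, dist_zero_right, WithAbs.norm_eq_apply_ofAbs] at this
    exact this
  · have := hg (NumberField.InfinitePlace.mk τ)
    rw [if_neg (fun h => by
      rcases NumberField.InfinitePlace.mk_eq_iff.1 h with h | h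
      exacts [h1 h, h2 h]), dist_comm, dist_eq_norm, WithAbs.norm_eq_apply_ofAbs] at this
    have e : τ g - 1 = τ (g - 1) := by simp
    rw [e]
    exact this

theorem exists_bar (σ : K →+* ℂ) (hc : ∀ x, ∃ y, σ y = starRingEnd ℂ (σ x)) :
    ∃ b : K →+* K, ∀ x, σ (b x) = starRingEnd ℂ (σ x) := by
  choose b hb using hc
  exact ⟨⟨⟨⟨b, σ.injective (by simp [hb])⟩, fun x y => σ.injective (by simp [hb])⟩,
    σ.injective (by simp [hb]), fun x y => σ.injective (by simp [hb])⟩, hb⟩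

theorem approx_real (σ : K →+* ℂ) (hc : ∀ x, ∃ y, σ y = starRingEnd ℂ (σ x)) {η : ℝ} (hη : 0 < η)
    (hη1 : η ≤ 1) : ∃ g : K, (σ g).im = 0 ∧ ‖σ g‖ < η ∧
    ∀ τ : K →+* ℂ, τ ≠ σ → NumberField.ComplexEmbedding.conjugate τ ≠ σ → ‖τ g - 1‖ < η := by
  obtain ⟨b, hb⟩ := exists_bar σ hc
  have hbb : ∀ x, b (b x) = x := fun x => σ.injective (by simp [hb])
  obtain ⟨g, h1, h2⟩ := approx σ (show 0 < η / 3 by linarith)
  refine ⟨g * b g, ?_, ?_, fun τ t1 t2 => ?_⟩
  · rw [map_mul, hb, Complex.mul_conj]; simp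
  · rw [map_mul, hb, norm_mul, Complex.norm_conj]
    nlinarith [norm_nonneg (σ g)]
  · have h3 := h2 τ t1 t2
    have h4 := h2 (τ.comp b) (fun h => t2 (by
      ext x
      have := congrArg (fun f : K →+* ℂ => f (b x)) h
      simp only [RingHom.comp_apply, hbb, hb] at this
      rw [NumberField.ComplexEmbedding.conjugate_coe_eq, this]
      simp)) (fun h => t1 (by
      ext x
      have := congrArg (fun f : K →+* ℂ => f (b x)) h
      simp only [NumberField.ComplexEmbedding.conjugate_coe_eq, RingHom.comp_apply, hbb, hb] at this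
      exact (starRingEnd ℂ).injective this))
    rw [RingHom.comp_apply] at h4
    have e : τ (g * b g) - 1 = (τ g - 1) * (τ (b g) - 1) + (τ g - 1) + (τ (b g) - 1) := by
      rw [map_mul]; ring
    rw [e]
    refine (norm_add₃_le.trans_lt ?_)
    rw [norm_mul]
    nlinarith [norm_nonneg (τ g - 1), norm_nonneg (τ (b g) - 1)]

theorem exists_rep (σ : K →+* ℂ) (hc : ∀ x, ∃ y, σ y = starRingEnd ℂ (σ x)) :
    ∃ c : K, (σ c).im = 0 ∧ 0 < (σ c).re ∧ ∀ y : K, (σ y).im = 0 → 0 ≤ (σ y).re →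
      ∃ (v : K) (w : Idx K → K), (σ v).im = 0 ∧ (∀ i, (σ (w i)).im = 0) ∧
        y = ∑ i, w i ^ 2 + c * v ^ 2 := by
  obtain ⟨g, g1, g2, g3⟩ := approx_real σ hc (η := 1 / 8) (by norm_num) (by norm_num)
  have g4 := abs_lt.1 ((Complex.abs_re_le_norm _).trans_lt g2)
  have c1 : σ (1 / 4 - g) = ((1 / 4 - (σ g).re : ℝ) : ℂ) := by
    rw [map_sub, map_div₀, map_one, map_ofNat]
    exact Complex.ext (by simp) (by simp [g1])
  refine ⟨1 / 4 - g, by rw [c1]; simp, by rw [c1, Complex.ofReal_re]; linarith, fun y y1 y2 => ?_⟩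
  rcases y2.eq_or_lt with y2 | y2
  · refine ⟨0, 0, by simp, by simp, σ.injective ?_⟩
    exact Complex.ext (by simp [← y2]) (by simp [y1])
  obtain ⟨B, hB⟩ := (Set.finite_range fun τ : K →+* ℂ => ‖τ y‖).bddAbove
  obtain ⟨N, hN⟩ := exists_nat_gt (4 * B + 1)
  have hB' : ∀ τ : K →+* ℂ, ‖τ y‖ ≤ B := fun τ => hB ⟨τ, rfl⟩
  have hB0 : 0 ≤ B := (norm_nonneg _).trans (hB' σ)
  have hN0 : (0 : ℝ) < N := by linarith
  obtain ⟨h, h1, h2, h3⟩ := approx_real σ hc (η := min (1 / 8) ((σ y).re / N ^ 2))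
    (lt_min (by norm_num) (by positivity)) ((min_le_left _ _).trans (by norm_num))
  obtain ⟨r, hr⟩ : ∃ r : ℝ, σ h = r := ⟨(σ h).re, Complex.ext (by simp) (by simp [h1])⟩
  have u1 : σ (y - (1 / 4 - g) * (N * h) ^ 2)
      = (((σ y).re - (1 / 4 - (σ g).re) * (N * r) ^ 2 : ℝ) : ℂ) := by
    rw [map_sub, map_mul, c1, map_pow, map_mul, hr, map_natCast]
    have : σ y = ((σ y).re : ℝ) := Complex.ext (by simp) (by simp [y1])
    conv_lhs => rw [this]
    push_cast; ring
  have u2 : 0 < (σ y).re - (1 / 4 - (σ g).re) * (N * r) ^ 2 := by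
    rw [hr, Complex.norm_real, Real.norm_eq_abs, lt_min_iff,
      lt_div_iff₀ (by positivity : (0 : ℝ) < N ^ 2)] at h2
    have a1 : r ^ 2 ≤ |r| := by rw [← sq_abs]; nlinarith [abs_nonneg r]
    have a2 : (N * r) ^ 2 ≤ |r| * N ^ 2 := by rw [mul_pow, mul_comm]; gcongr
    nlinarith [sq_nonneg (N * r)]
  obtain ⟨w, w1, w2⟩ := landau σ (y - (1 / 4 - g) * (N * h) ^ 2) (by rw [u1]; exact Complex.ofReal_im _) (fun τ => by
    by_cases t1 : τ = σ
    · rw [t1, u1, Complex.ofReal_re]; exact u2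
    by_cases t2 : NumberField.ComplexEmbedding.conjugate τ = σ
    · rw [← Complex.conj_re, ← NumberField.ComplexEmbedding.conjugate_coe_eq, t2, u1, Complex.ofReal_re]
      exact u2
    have a1 := g3 τ t1 t2
    have a2 := (h3 τ t1 t2).trans_le (min_le_left _ _)
    have e : τ (y - (1 / 4 - g) * (N * h) ^ 2) = τ y + ((N ^ 2 : ℝ) : ℂ) * (3 / 4 + ((τ g - 1) +
        (3 / 4 + (τ g - 1)) * ((τ h - 1) * (2 + (τ h - 1))))) := by
      rw [map_sub, map_mul, map_sub, map_div₀, map_one, map_ofNat, map_pow, map_mul, map_natCast]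
      push_cast; ring
    generalize τ g - 1 = a at *
    generalize τ h - 1 = d at *
    have a3 : ‖a + (3 / 4 + a) * (d * (2 + d))‖ ≤ 1 / 2 := by
      have b1 : ‖(3 / 4 : ℂ) + a‖ ≤ 1 := (norm_add_le _ _).trans (by simp; linarith)
      have b2 : ‖(2 : ℂ) + d‖ ≤ 3 := (norm_add_le _ _).trans (by simp; linarith)
      refine (norm_add_le _ _).trans ?_
      rw [norm_mul, norm_mul]
      have b3 : ‖d‖ * ‖2 + d‖ ≤ 1 / 8 * 3 := mul_le_mul a2.le b2 (norm_nonneg _) (by norm_num)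
      have b4 := mul_le_mul b1 b3 (by positivity) zero_le_one
      linarith
    have a4 := abs_le.1 ((Complex.abs_re_le_norm _).trans a3)
    have a5 := abs_le.1 ((Complex.abs_re_le_norm _).trans (hB' τ))
    rw [e, Complex.add_re, Complex.re_ofReal_mul, Complex.add_re]
    have a6 : (3 / 4 : ℂ).re = 3 / 4 := by simp
    rw [a6]
    nlinarith)
  exact ⟨N * h, w, by simp [hr], w1, by rw [← w2]; ring⟩

theorem main (σ : K →+* ℂ) (hc : ∀ x, ∃ y, σ y = starRingEnd ℂ (σ x)) (hn : ∃ x, (σ x).im ≠ 0) :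
    Diophantine {x | ‖σ x‖ ≤ 1} ↔ Diophantine {x | (σ x).im = 0} := by
  obtain ⟨b, hb⟩ := exists_bar σ hc
  obtain ⟨x0, hx0⟩ := hn
  obtain ⟨d, d1, d2⟩ : ∃ d : K, (σ d).re = 0 ∧ (σ d).im ≠ 0 :=
    ⟨x0 - b x0, by simp [hb], by simp [hb, hx0]⟩
  constructor
  · intro h
    have := h.comp (β := Fin 3) (J := Fin 2) 0
      {X 0 + C d - X 1 * (X 0 - C d), X 0 - C d - X 2 * (X 0 + C d)} (Set.toFinite _) ![X 1, X 2]
    convert this using 2 with t
    ext t
    have key : ‖σ (t + d)‖ ^ 2 - ‖σ (t - d)‖ ^ 2 = 4 * (σ t).im * (σ d).im := by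
      rw [← Complex.normSq_eq_norm_sq, ← Complex.normSq_eq_norm_sq]
      simp [Complex.normSq_apply, d1]; ring
    constructor
    · intro ht
      have ht : (σ t).im = 0 := ht
      have n1 : t - d ≠ 0 := fun h => d2 (by rw [← sub_eq_zero.1 h]; exact ht)
      have n2 : t + d ≠ 0 := fun h => d2 (by rw [eq_neg_of_add_eq_zero_right h]; simp [ht])
      have e : ‖σ (t + d)‖ = ‖σ (t - d)‖ := by
        rw [ht, mul_zero, zero_mul, sub_eq_zero] at key
        exact (pow_left_inj₀ (norm_nonneg _) (norm_nonneg _) two_ne_zero).1 key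
      refine ⟨![t, (t + d) / (t - d), (t - d) / (t + d)], rfl, ?_, ?_⟩
      · rintro p (rfl | rfl) <;> simp [n1, n2]
      · intro j
        fin_cases j
        · simpa [← map_add, ← map_sub, e] using div_self_le_one _
        · simpa [← map_add, ← map_sub, e] using div_self_le_one _
    · rintro ⟨v, rfl, h1, h2⟩
      have a1 := h1 _ (Or.inl rfl)
      have a2 := h1 _ (Or.inr rfl)
      have a3 : ‖σ (v 1)‖ ≤ 1 := by simpa using h2 0
      have a4 : ‖σ (v 2)‖ ≤ 1 := by simpa using h2 1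
      simp only [map_sub, map_add, map_mul, eval_X, eval_C, sub_eq_zero] at a1 a2
      have a5 : ‖σ (v 0 + d)‖ ≤ ‖σ (v 0 - d)‖ := by
        rw [a1, map_mul, norm_mul]; exact mul_le_of_le_one_left (norm_nonneg _) a3
      have a6 : ‖σ (v 0 - d)‖ ≤ ‖σ (v 0 + d)‖ := by
        rw [a2, map_mul, norm_mul]; exact mul_le_of_le_one_left (norm_nonneg _) a4
      rw [le_antisymm a5 a6, sub_self] at key
      simpa [d2] using key
  · intro h
    obtain ⟨c, c1, c2, hrep⟩ := exists_rep σ hc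
    have := h.comp (β := Fin 3 ⊕ Idx K) (J := Fin 3 ⊕ Idx K) (Sum.inl 0)
      {1 - X (Sum.inl 0) * X (Sum.inl 1) - (∑ i, X (Sum.inr i) ^ 2 + C c * X (Sum.inl 2) ^ 2)}
      (Set.toFinite _) (Sum.elim ![X (Sum.inl 0) + X (Sum.inl 1),
        C d * (X (Sum.inl 0) - X (Sum.inl 1)), X (Sum.inl 2)] fun i => X (Sum.inr i))
    convert this using 2 with x
    ext x
    constructor
    · intro hx
      have hx : ‖σ x‖ ≤ 1 := hx
      have e : σ (1 - x * b x) = ((1 - ‖σ x‖ ^ 2 : ℝ) : ℂ) := by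
        rw [map_sub, map_mul, hb, Complex.mul_conj, Complex.normSq_eq_norm_sq]; simp
      obtain ⟨v, w, v1, w1, e1⟩ := hrep (1 - x * b x) (by rw [e]; exact Complex.ofReal_im _)
        (by rw [e, Complex.ofReal_re]; nlinarith [norm_nonneg (σ x)])
      refine ⟨Sum.elim ![x, b x, v] w, rfl, ?_, ?_⟩
      · rintro p rfl
        simpa [sub_eq_zero] using e1
      · rintro (j | j)
        · fin_cases j
          · simp [hb]
          · simp [hb, d1]
          · simpa using v1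
        · simpa using w1 j
    · rintro ⟨v, rfl, h1, h2⟩
      have a1 := h1 _ rfl
      have a2 := h2 (Sum.inl 0)
      have a3 := h2 (Sum.inl 1)
      have a4 := h2 (Sum.inl 2)
      have a5 := fun i => h2 (Sum.inr i)
      simp [d1, d2, sub_eq_zero] at a1 a2 a3 a4 a5
      have a6 := congrArg (fun z => (σ z).re) a1
      simp [pow_two, a4, a5, c1] at a6
      have a7 : 0 ≤ ∑ i, (σ (v (Sum.inr i))).re * (σ (v (Sum.inr i))).re :=
        Finset.sum_nonneg fun i _ => mul_self_nonneg _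
      have a8 := mul_nonneg c2.le (mul_self_nonneg (σ (v (Sum.inl 2))).re)
      show ‖σ (v (Sum.inl 0))‖ ≤ 1
      rw [← sq_le_one_iff₀ (norm_nonneg _), ← Complex.normSq_eq_norm_sq, Complex.normSq_apply]
      rw [← a3, eq_neg_of_add_eq_zero_right a2] at a6
      linarith

end Pool.Agent.Lib.MP_c40b92_nt
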